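import Pool.Agent.Run7.h487.Tabs
import Pool.Agent.W38.TO.Kern4

/-! The tables are weighted sums of squares. -/

set_option autoImplicit false
set_option maxRecDepth 100000
open Finset

namespace Pool.Agent.Run7.h487.FL

open Pool.Agent.H122R2.FdF Pool.Agent.W38.TO

def ps (L D K i j v : ℕ) : Bool :=
  Nat.beq (Nat.add (Nat.add (nsum K fun k => Nat.mul (ww D k) (Nat.mul (ll L i k) (ll L j k)))
      (Nat.mul 17179869184 (nsum K fun k => ww D k))) 34359738368)
    (Nat.add v (Nat.mul 131072 (nsum K fun k => Nat.mul (ww D k) (Nat.add (ll L i k) (ll L j k)))))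

theorem psA : (nall 47 fun i => nall 47 fun j => ps LA DA 60 i j (tt TA (Nat.add (Nat.mul 47 i) j)))
    = true := by decide +kernel

theorem psB : (nall 47 fun i => nall 47 fun j => ps LB DB 60 i j (tt TB (Nat.add (Nat.mul 47 i) j)))
    = true := by decide +kernel

theorem psC : (nall 47 fun i => nall 47 fun j => ps LC DC 60 i j (tt TC (Nat.add (Nat.mul 47 i) j)))
    = true := by decide +kernel

theorem psD : (nall 16 fun i => nall 16 fun j => ps LD DD 60 i j (tt TD (Nat.add (Nat.mul 16 i) j)))
    = true := by decide +kernel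

theorem fi_ok : (nall 16 fun c => nall 256 fun i => Nat.ble (Nat.succ (fi c i)) 47) = true := by
  decide +kernel

theorem ty_ok : (nall 16 fun c => Nat.ble (Nat.succ (ty c)) 4) = true := by decide +kernel

theorem ps_eq' {L D K i j v : ℕ} (h : ps L D K i j v = true) :
    (v : ℤ) = ∑ k ∈ range K, (ww D k : ℤ) * (((ll L i k : ℤ) - 131072) * ((ll L j k : ℤ) - 131072))
      + 34359738368 := by
  have h1 := Nat.eq_of_beq_eq_true h
  rw [nsum_eq, nsum_eq, nsum_eq] at h1
  have h2 := congrArg (fun n : ℕ => (n : ℤ)) h1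
  simp only [Nat.add_eq, Nat.mul_eq] at h2
  push_cast at h2
  have e := expand_d (range K) (ww D) (ll L i) (ll L j) 131072
  have e2 : ∑ k ∈ range K, (ww D k : ℤ) * (((ll L i k : ℤ) - 131072) * ((ll L j k : ℤ) - 131072))
      = ∑ k ∈ range K, (ww D k : ℤ) * ((ll L i k : ℤ) - 131072) * ((ll L j k : ℤ) - 131072) :=
    sum_congr rfl fun k _ => by ring
  rw [e2, e]
  linarith

end Pool.Agent.Run7.h487.FL
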