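import Pool.Agent.Run7.h487.Chk
import Pool.Agent.Run7.h487.Psd

/-! From the finite check to the leaf inequality. -/

set_option autoImplicit false
set_option maxRecDepth 100000
set_option linter.unusedSimpArgs false
open Finset

namespace Pool.Agent.Run7.h487.FL

theorem xg {a b g : ℕ} (ha : a ≤ 1) (hb : b ≤ 1) (hg : g ≤ 1) :
    Nat.xor (Nat.xor a g) (Nat.xor b g) = Nat.xor a b := by
  interval_cases a <;> interval_cases b <;> interval_cases g <;> rfl

theorem xne {a b : ℕ} (ha : a ≤ 1) (hb : b ≤ 1) (h : a ≠ b) : Nat.xor a b = 1 := by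
  interval_cases a <;> interval_cases b <;> first | rfl | exact absurd rfl h

theorem xself {a : ℕ} (ha : a ≤ 1) : Nat.xor a a = 0 := by
  interval_cases a <;> rfl

theorem prod0 {p q r t : ℕ} (hp : p ≤ 1) (hq : q ≤ 1) (hr : r ≤ 1) (ht : t ≤ 1)
    (h : ¬ (p = 1 ∧ q = 1 ∧ r = 1 ∧ t = 1)) :
    Nat.mul p (Nat.mul q (Nat.mul r t)) = 0 := by
  interval_cases p <;> interval_cases q <;> interval_cases r <;> interval_cases t <;>
    first | rfl | exact absurd ⟨rfl, rfl, rfl, rfl⟩ h

theorem LF_gauge {V : Type} (s : V → V → ℕ) (E : V → V → V → ℕ) (hs : ∀ x y, s x y ≤ 1)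
    (q3 : ℕ → ℕ → ℕ → ℕ) (q1 : ℕ → ℕ → ℕ) (x : Fin 5 → V) (g : Fin 5 → ℕ) (hg : ∀ i, g i ≤ 1) :
    LF s E q3 q1 x = LF (fun i j => Nat.xor (s (x i) (x j)) (g i))
      (fun i j k => E (x i) (x j) (x k)) q3 q1 id := by
  have hR : ∀ i j k, R3 s E (x i) (x j) (x k) = R3 (fun i j => Nat.xor (s (x i) (x j)) (g i))
      (fun i j k => E (x i) (x j) (x k)) i j k := by
    intro i j k
    simp only [R3, rc, xg (hs _ _) (hs _ _) (hg _)]
  have hA : ∀ i j k l, AK s E (x i) (x j) (x k) (x l) =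
      AK (fun i j => Nat.xor (s (x i) (x j)) (g i)) (fun i j k => E (x i) (x j) (x k)) i j k l := by
    intro i j k l
    simp only [AK, ak, xg (hs _ _) (hs _ _) (hg _)]
  simp only [LF, G3, G1, hR, hA, id]

theorem leaf_fin (S : Fin 5 → Fin 5 → ℕ) (E : Fin 5 → Fin 5 → Fin 5 → ℕ) (hS : ∀ i j, S i j ≤ 1)
    (hE : ∀ i j k, E i j k ≤ 1) (h12 : ∀ a b c, E a b c = E b a c)
    (h23 : ∀ a b c, E a b c = E a c b) (z01 : S 0 1 = 0) (z10 : S 1 0 = 0) (z20 : S 2 0 = 0)
    (z30 : S 3 0 = 0) (z40 : S 4 0 = 0)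
    (him : ∀ i j k, E i j k = 1 → mm (S i j) (S i k) (S j i) (S j k) (S k i) (S k j) = 1)
    (hF : ∀ a b c d e : Fin 5, a ≠ b → a ≠ c → a ≠ d → a ≠ e → b ≠ c → b ≠ d → b ≠ e → c ≠ d →
      c ≠ e → d ≠ e → ¬ (E a b c = 1 ∧ E a b d = 1 ∧ E a b e = 1 ∧ E c d e = 1)) :
    LF S E q3 q1 id ≤ 875099586560 := by
  have y021 : E 0 2 1 = E 0 1 2 := h23 _ _ _
  have y102 : E 1 0 2 = E 0 1 2 := h12 _ _ _
  have y120 : E 1 2 0 = E 0 1 2 := (h23 _ _ _).trans (h12 _ _ _)
  have y201 : E 2 0 1 = E 0 1 2 := (h12 _ _ _).trans (h23 _ _ _)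
  have y210 : E 2 1 0 = E 0 1 2 := (h12 _ _ _).trans ((h23 _ _ _).trans (h12 _ _ _))
  have y031 : E 0 3 1 = E 0 1 3 := h23 _ _ _
  have y103 : E 1 0 3 = E 0 1 3 := h12 _ _ _
  have y130 : E 1 3 0 = E 0 1 3 := (h23 _ _ _).trans (h12 _ _ _)
  have y301 : E 3 0 1 = E 0 1 3 := (h12 _ _ _).trans (h23 _ _ _)
  have y310 : E 3 1 0 = E 0 1 3 := (h12 _ _ _).trans ((h23 _ _ _).trans (h12 _ _ _))
  have y041 : E 0 4 1 = E 0 1 4 := h23 _ _ _
  have y104 : E 1 0 4 = E 0 1 4 := h12 _ _ _
  have y140 : E 1 4 0 = E 0 1 4 := (h23 _ _ _).trans (h12 _ _ _)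
  have y401 : E 4 0 1 = E 0 1 4 := (h12 _ _ _).trans (h23 _ _ _)
  have y410 : E 4 1 0 = E 0 1 4 := (h12 _ _ _).trans ((h23 _ _ _).trans (h12 _ _ _))
  have y032 : E 0 3 2 = E 0 2 3 := h23 _ _ _
  have y203 : E 2 0 3 = E 0 2 3 := h12 _ _ _
  have y230 : E 2 3 0 = E 0 2 3 := (h23 _ _ _).trans (h12 _ _ _)
  have y302 : E 3 0 2 = E 0 2 3 := (h12 _ _ _).trans (h23 _ _ _)
  have y320 : E 3 2 0 = E 0 2 3 := (h12 _ _ _).trans ((h23 _ _ _).trans (h12 _ _ _))
  have y042 : E 0 4 2 = E 0 2 4 := h23 _ _ _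
  have y204 : E 2 0 4 = E 0 2 4 := h12 _ _ _
  have y240 : E 2 4 0 = E 0 2 4 := (h23 _ _ _).trans (h12 _ _ _)
  have y402 : E 4 0 2 = E 0 2 4 := (h12 _ _ _).trans (h23 _ _ _)
  have y420 : E 4 2 0 = E 0 2 4 := (h12 _ _ _).trans ((h23 _ _ _).trans (h12 _ _ _))
  have y043 : E 0 4 3 = E 0 3 4 := h23 _ _ _
  have y304 : E 3 0 4 = E 0 3 4 := h12 _ _ _
  have y340 : E 3 4 0 = E 0 3 4 := (h23 _ _ _).trans (h12 _ _ _)
  have y403 : E 4 0 3 = E 0 3 4 := (h12 _ _ _).trans (h23 _ _ _)
  have y430 : E 4 3 0 = E 0 3 4 := (h12 _ _ _).trans ((h23 _ _ _).trans (h12 _ _ _))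
  have y132 : E 1 3 2 = E 1 2 3 := h23 _ _ _
  have y213 : E 2 1 3 = E 1 2 3 := h12 _ _ _
  have y231 : E 2 3 1 = E 1 2 3 := (h23 _ _ _).trans (h12 _ _ _)
  have y312 : E 3 1 2 = E 1 2 3 := (h12 _ _ _).trans (h23 _ _ _)
  have y321 : E 3 2 1 = E 1 2 3 := (h12 _ _ _).trans ((h23 _ _ _).trans (h12 _ _ _))
  have y142 : E 1 4 2 = E 1 2 4 := h23 _ _ _
  have y214 : E 2 1 4 = E 1 2 4 := h12 _ _ _
  have y241 : E 2 4 1 = E 1 2 4 := (h23 _ _ _).trans (h12 _ _ _)
  have y412 : E 4 1 2 = E 1 2 4 := (h12 _ _ _).trans (h23 _ _ _)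
  have y421 : E 4 2 1 = E 1 2 4 := (h12 _ _ _).trans ((h23 _ _ _).trans (h12 _ _ _))
  have y143 : E 1 4 3 = E 1 3 4 := h23 _ _ _
  have y314 : E 3 1 4 = E 1 3 4 := h12 _ _ _
  have y341 : E 3 4 1 = E 1 3 4 := (h23 _ _ _).trans (h12 _ _ _)
  have y413 : E 4 1 3 = E 1 3 4 := (h12 _ _ _).trans (h23 _ _ _)
  have y431 : E 4 3 1 = E 1 3 4 := (h12 _ _ _).trans ((h23 _ _ _).trans (h12 _ _ _))
  have y243 : E 2 4 3 = E 2 3 4 := h23 _ _ _
  have y324 : E 3 2 4 = E 2 3 4 := h12 _ _ _
  have y342 : E 3 4 2 = E 2 3 4 := (h23 _ _ _).trans (h12 _ _ _)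
  have y423 : E 4 2 3 = E 2 3 4 := (h12 _ _ _).trans (h23 _ _ _)
  have y432 : E 4 3 2 = E 2 3 4 := (h12 _ _ _).trans ((h23 _ _ _).trans (h12 _ _ _))
  have hl : LF S E q3 q1 id = leafK (S 0 2) (S 0 3) (S 0 4) (S 1 2) (S 1 3) (S 1 4) (S 2 1) (S 2 3) (S 2 4) (S 3 1) (S 3 2) (S 3 4) (S 4 1) (S 4 2) (S 4 3)
    (E 0 1 2) (E 0 1 3) (E 0 1 4) (E 0 2 3) (E 0 2 4) (E 0 3 4) (E 1 2 3) (E 1 2 4) (E 1 3 4) (E 2 3 4) := by
    simp only [LF, G3, G1, R3, AK, id, z01, z10, z20, z30, z40,
      y021, y102, y120, y201, y210, y031, y103, y130, y301, y310, y041, y104, y140, y401, y410, y032, y203, y230, y302, y320, y042, y204, y240, y402, y420, y043, y304, y340, y403, y430, y132, y213, y231, y312, y321, y142, y214, y241, y412, y421, y143, y314, y341, y413, y431, y243, y324, y342, y423, y432]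
    rfl
  rw [hl]
  have h := chkI_all (hS 0 2) (hS 0 3) (hS 1 2) (hS 1 3) (hS 2 1) (hS 2 3) (hS 3 1) (hS 3 2)
  have m012 : E 0 1 2 = 1 → mm 0 (S 0 2) 0 (S 1 2) 0 (S 2 1) = 1 := by
    have := him 0 1 2
    simpa only [z01, z10, z20, z30, z40] using this
  have m013 : E 0 1 3 = 1 → mm 0 (S 0 3) 0 (S 1 3) 0 (S 3 1) = 1 := by
    have := him 0 1 3
    simpa only [z01, z10, z20, z30, z40] using this
  have m014 : E 0 1 4 = 1 → mm 0 (S 0 4) 0 (S 1 4) 0 (S 4 1) = 1 := by
    have := him 0 1 4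
    simpa only [z01, z10, z20, z30, z40] using this
  have m023 : E 0 2 3 = 1 → mm (S 0 2) (S 0 3) 0 (S 2 3) 0 (S 3 2) = 1 := by
    have := him 0 2 3
    simpa only [z01, z10, z20, z30, z40] using this
  have m024 : E 0 2 4 = 1 → mm (S 0 2) (S 0 4) 0 (S 2 4) 0 (S 4 2) = 1 := by
    have := him 0 2 4
    simpa only [z01, z10, z20, z30, z40] using this
  have m034 : E 0 3 4 = 1 → mm (S 0 3) (S 0 4) 0 (S 3 4) 0 (S 4 3) = 1 := by
    have := him 0 3 4
    simpa only [z01, z10, z20, z30, z40] using this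
  have m123 : E 1 2 3 = 1 → mm (S 1 2) (S 1 3) (S 2 1) (S 2 3) (S 3 1) (S 3 2) = 1 := by
    have := him 1 2 3
    simpa only [z01, z10, z20, z30, z40] using this
  have m124 : E 1 2 4 = 1 → mm (S 1 2) (S 1 4) (S 2 1) (S 2 4) (S 4 1) (S 4 2) = 1 := by
    have := him 1 2 4
    simpa only [z01, z10, z20, z30, z40] using this
  have m134 : E 1 3 4 = 1 → mm (S 1 3) (S 1 4) (S 3 1) (S 3 4) (S 4 1) (S 4 3) = 1 := by
    have := him 1 3 4
    simpa only [z01, z10, z20, z30, z40] using this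
  have m234 : E 2 3 4 = 1 → mm (S 2 3) (S 2 4) (S 3 2) (S 3 4) (S 4 2) (S 4 3) = 1 := by
    have := him 2 3 4
    simpa only [z01, z10, z20, z30, z40] using this
  replace h := BE_spec h (hE 0 1 2) m012
  replace h := BE_spec h (hE 0 1 3) m013
  replace h := BE_spec h (hE 0 2 3) m023
  replace h := BE_spec h (hE 1 2 3) m123
  replace h := B2_spec h (hS 0 4)
  replace h := B2_spec h (hS 1 4)
  replace h := B2_spec h (hS 2 4)
  replace h := B2_spec h (hS 3 4)
  replace h := B2_spec h (hS 4 1)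
  replace h := B2_spec h (hS 4 2)
  replace h := B2_spec h (hS 4 3)
  replace h := BE_spec h (hE 0 1 4) m014
  replace h := BE_spec h (hE 0 2 4) m024
  replace h := BE_spec h (hE 0 3 4) m034
  replace h := BE_spec h (hE 1 2 4) m124
  replace h := BE_spec h (hE 1 3 4) m134
  replace h := BE_spec h (hE 2 3 4) m234
  have f01 : Nat.mul (E 0 1 2) (Nat.mul (E 0 1 3) (Nat.mul (E 0 1 4) (E 2 3 4))) = 0 := by
    refine prod0 (hE _ _ _) (hE _ _ _) (hE _ _ _) (hE _ _ _) ?_
    have := hF 0 1 2 3 4 (by decide) (by decide) (by decide) (by decide) (by decide)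
      (by decide) (by decide) (by decide) (by decide) (by decide)
    simpa only [y021, y102, y120, y201, y210, y031, y103, y130, y301, y310, y041, y104, y140, y401, y410, y032, y203, y230, y302, y320, y042, y204, y240, y402, y420, y043, y304, y340, y403, y430, y132, y213, y231, y312, y321, y142, y214, y241, y412, y421, y143, y314, y341, y413, y431, y243, y324, y342, y423, y432] using this
  have f02 : Nat.mul (E 0 1 2) (Nat.mul (E 0 2 3) (Nat.mul (E 0 2 4) (E 1 3 4))) = 0 := by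
    refine prod0 (hE _ _ _) (hE _ _ _) (hE _ _ _) (hE _ _ _) ?_
    have := hF 0 2 1 3 4 (by decide) (by decide) (by decide) (by decide) (by decide)
      (by decide) (by decide) (by decide) (by decide) (by decide)
    simpa only [y021, y102, y120, y201, y210, y031, y103, y130, y301, y310, y041, y104, y140, y401, y410, y032, y203, y230, y302, y320, y042, y204, y240, y402, y420, y043, y304, y340, y403, y430, y132, y213, y231, y312, y321, y142, y214, y241, y412, y421, y143, y314, y341, y413, y431, y243, y324, y342, y423, y432] using this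
  have f03 : Nat.mul (E 0 1 3) (Nat.mul (E 0 2 3) (Nat.mul (E 0 3 4) (E 1 2 4))) = 0 := by
    refine prod0 (hE _ _ _) (hE _ _ _) (hE _ _ _) (hE _ _ _) ?_
    have := hF 0 3 1 2 4 (by decide) (by decide) (by decide) (by decide) (by decide)
      (by decide) (by decide) (by decide) (by decide) (by decide)
    simpa only [y021, y102, y120, y201, y210, y031, y103, y130, y301, y310, y041, y104, y140, y401, y410, y032, y203, y230, y302, y320, y042, y204, y240, y402, y420, y043, y304, y340, y403, y430, y132, y213, y231, y312, y321, y142, y214, y241, y412, y421, y143, y314, y341, y413, y431, y243, y324, y342, y423, y432] using this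
  have f04 : Nat.mul (E 0 1 4) (Nat.mul (E 0 2 4) (Nat.mul (E 0 3 4) (E 1 2 3))) = 0 := by
    refine prod0 (hE _ _ _) (hE _ _ _) (hE _ _ _) (hE _ _ _) ?_
    have := hF 0 4 1 2 3 (by decide) (by decide) (by decide) (by decide) (by decide)
      (by decide) (by decide) (by decide) (by decide) (by decide)
    simpa only [y021, y102, y120, y201, y210, y031, y103, y130, y301, y310, y041, y104, y140, y401, y410, y032, y203, y230, y302, y320, y042, y204, y240, y402, y420, y043, y304, y340, y403, y430, y132, y213, y231, y312, y321, y142, y214, y241, y412, y421, y143, y314, y341, y413, y431, y243, y324, y342, y423, y432] using this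
  have f12 : Nat.mul (E 0 1 2) (Nat.mul (E 1 2 3) (Nat.mul (E 1 2 4) (E 0 3 4))) = 0 := by
    refine prod0 (hE _ _ _) (hE _ _ _) (hE _ _ _) (hE _ _ _) ?_
    have := hF 1 2 0 3 4 (by decide) (by decide) (by decide) (by decide) (by decide)
      (by decide) (by decide) (by decide) (by decide) (by decide)
    simpa only [y021, y102, y120, y201, y210, y031, y103, y130, y301, y310, y041, y104, y140, y401, y410, y032, y203, y230, y302, y320, y042, y204, y240, y402, y420, y043, y304, y340, y403, y430, y132, y213, y231, y312, y321, y142, y214, y241, y412, y421, y143, y314, y341, y413, y431, y243, y324, y342, y423, y432] using this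
  have f13 : Nat.mul (E 0 1 3) (Nat.mul (E 1 2 3) (Nat.mul (E 1 3 4) (E 0 2 4))) = 0 := by
    refine prod0 (hE _ _ _) (hE _ _ _) (hE _ _ _) (hE _ _ _) ?_
    have := hF 1 3 0 2 4 (by decide) (by decide) (by decide) (by decide) (by decide)
      (by decide) (by decide) (by decide) (by decide) (by decide)
    simpa only [y021, y102, y120, y201, y210, y031, y103, y130, y301, y310, y041, y104, y140, y401, y410, y032, y203, y230, y302, y320, y042, y204, y240, y402, y420, y043, y304, y340, y403, y430, y132, y213, y231, y312, y321, y142, y214, y241, y412, y421, y143, y314, y341, y413, y431, y243, y324, y342, y423, y432] using this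
  have f14 : Nat.mul (E 0 1 4) (Nat.mul (E 1 2 4) (Nat.mul (E 1 3 4) (E 0 2 3))) = 0 := by
    refine prod0 (hE _ _ _) (hE _ _ _) (hE _ _ _) (hE _ _ _) ?_
    have := hF 1 4 0 2 3 (by decide) (by decide) (by decide) (by decide) (by decide)
      (by decide) (by decide) (by decide) (by decide) (by decide)
    simpa only [y021, y102, y120, y201, y210, y031, y103, y130, y301, y310, y041, y104, y140, y401, y410, y032, y203, y230, y302, y320, y042, y204, y240, y402, y420, y043, y304, y340, y403, y430, y132, y213, y231, y312, y321, y142, y214, y241, y412, y421, y143, y314, y341, y413, y431, y243, y324, y342, y423, y432] using this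
  have f23 : Nat.mul (E 0 2 3) (Nat.mul (E 1 2 3) (Nat.mul (E 2 3 4) (E 0 1 4))) = 0 := by
    refine prod0 (hE _ _ _) (hE _ _ _) (hE _ _ _) (hE _ _ _) ?_
    have := hF 2 3 0 1 4 (by decide) (by decide) (by decide) (by decide) (by decide)
      (by decide) (by decide) (by decide) (by decide) (by decide)
    simpa only [y021, y102, y120, y201, y210, y031, y103, y130, y301, y310, y041, y104, y140, y401, y410, y032, y203, y230, y302, y320, y042, y204, y240, y402, y420, y043, y304, y340, y403, y430, y132, y213, y231, y312, y321, y142, y214, y241, y412, y421, y143, y314, y341, y413, y431, y243, y324, y342, y423, y432] using this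
  have f24 : Nat.mul (E 0 2 4) (Nat.mul (E 1 2 4) (Nat.mul (E 2 3 4) (E 0 1 3))) = 0 := by
    refine prod0 (hE _ _ _) (hE _ _ _) (hE _ _ _) (hE _ _ _) ?_
    have := hF 2 4 0 1 3 (by decide) (by decide) (by decide) (by decide) (by decide)
      (by decide) (by decide) (by decide) (by decide) (by decide)
    simpa only [y021, y102, y120, y201, y210, y031, y103, y130, y301, y310, y041, y104, y140, y401, y410, y032, y203, y230, y302, y320, y042, y204, y240, y402, y420, y043, y304, y340, y403, y430, y132, y213, y231, y312, y321, y142, y214, y241, y412, y421, y143, y314, y341, y413, y431, y243, y324, y342, y423, y432] using this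
  have f34 : Nat.mul (E 0 3 4) (Nat.mul (E 1 3 4) (Nat.mul (E 2 3 4) (E 0 1 2))) = 0 := by
    refine prod0 (hE _ _ _) (hE _ _ _) (hE _ _ _) (hE _ _ _) ?_
    have := hF 3 4 0 1 2 (by decide) (by decide) (by decide) (by decide) (by decide)
      (by decide) (by decide) (by decide) (by decide) (by decide)
    simpa only [y021, y102, y120, y201, y210, y031, y103, y130, y301, y310, y041, y104, y140, y401, y410, y032, y203, y230, y302, y320, y042, y204, y240, y402, y420, y043, y304, y340, y403, y430, y132, y213, y231, y312, y321, y142, y214, y241, y412, y421, y143, y314, y341, y413, y431, y243, y324, y342, y423, y432] using this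
  have hf : f32 (E 0 1 2) (E 0 1 3) (E 0 1 4) (E 0 2 3) (E 0 2 4) (E 0 3 4) (E 1 2 3) (E 1 2 4) (E 1 3 4) (E 2 3 4) = 0 := by
    unfold f32
    rw [f01, f02, f03, f04, f12, f13, f14, f23, f24, f34]
  rw [hf] at h
  have e0 : Nat.beq 0 0 = true := rfl
  rw [e0, cond_true] at h
  exact Nat.le_of_ble_eq_true h

end Pool.Agent.Run7.h487.FL
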