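import Pool.Agent.Run7.h487.Tabs

/-! The finite check over all five-vertex structures. -/

set_option autoImplicit false
set_option maxRecDepth 100000

namespace Pool.Agent.Run7.h487.FL

def chkB (s02 s03 s12 s13 : ℕ) : Bool :=
  B2 fun s21 => B2 fun s23 => B2 fun s31 => B2 fun s32 => chkI s02 s03 s12 s13 s21 s23 s31 s32

theorem c0000 : chkB 0 0 0 0 = true := by decide +kernel

theorem c0001 : chkB 0 0 0 1 = true := by decide +kernel

theorem c0010 : chkB 0 0 1 0 = true := by decide +kernel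

theorem c0011 : chkB 0 0 1 1 = true := by decide +kernel

theorem c0100 : chkB 0 1 0 0 = true := by decide +kernel

theorem c0101 : chkB 0 1 0 1 = true := by decide +kernel

theorem c0110 : chkB 0 1 1 0 = true := by decide +kernel

theorem c0111 : chkB 0 1 1 1 = true := by decide +kernel

theorem c1000 : chkB 1 0 0 0 = true := by decide +kernel

theorem c1001 : chkB 1 0 0 1 = true := by decide +kernel

theorem c1010 : chkB 1 0 1 0 = true := by decide +kernel

theorem c1011 : chkB 1 0 1 1 = true := by decide +kernel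

theorem c1100 : chkB 1 1 0 0 = true := by decide +kernel

theorem c1101 : chkB 1 1 0 1 = true := by decide +kernel

theorem c1110 : chkB 1 1 1 0 = true := by decide +kernel

theorem c1111 : chkB 1 1 1 1 = true := by decide +kernel

theorem B2_spec {f : ℕ → Bool} (h : B2 f = true) {b : ℕ} (hb : b ≤ 1) : f b = true := by
  have h' : (f 0 && f 1) = true := h
  rw [Bool.and_eq_true] at h'
  rcases Nat.le_one_iff_eq_zero_or_eq_one.mp hb with rfl | rfl
  · exact h'.1
  · exact h'.2

theorem BE_spec {m : ℕ} {f : ℕ → Bool} (h : BE m f = true) {e : ℕ} (he : e ≤ 1)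
    (hm : e = 1 → m = 1) : f e = true := by
  have h' : (f 0 && cond (Nat.beq m 1) (f 1) true) = true := h
  rw [Bool.and_eq_true] at h'
  rcases Nat.le_one_iff_eq_zero_or_eq_one.mp he with rfl | rfl
  · exact h'.1
  · have := h'.2
    rw [hm rfl] at this
    exact this

theorem chkB_all {s02 s03 s12 s13 : ℕ} (h1 : s02 ≤ 1) (h2 : s03 ≤ 1) (h3 : s12 ≤ 1)
    (h4 : s13 ≤ 1) : chkB s02 s03 s12 s13 = true := by
  rcases Nat.le_one_iff_eq_zero_or_eq_one.mp h1 with rfl | rfl <;>
  rcases Nat.le_one_iff_eq_zero_or_eq_one.mp h2 with rfl | rfl <;>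
  rcases Nat.le_one_iff_eq_zero_or_eq_one.mp h3 with rfl | rfl <;>
  rcases Nat.le_one_iff_eq_zero_or_eq_one.mp h4 with rfl | rfl
  · exact c0000
  · exact c0001
  · exact c0010
  · exact c0011
  · exact c0100
  · exact c0101
  · exact c0110
  · exact c0111
  · exact c1000
  · exact c1001
  · exact c1010
  · exact c1011
  · exact c1100
  · exact c1101
  · exact c1110
  · exact c1111

theorem chkI_all {s02 s03 s12 s13 s21 s23 s31 s32 : ℕ} (h1 : s02 ≤ 1) (h2 : s03 ≤ 1)
    (h3 : s12 ≤ 1) (h4 : s13 ≤ 1) (h5 : s21 ≤ 1) (h6 : s23 ≤ 1) (h7 : s31 ≤ 1) (h8 : s32 ≤ 1) :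
    chkI s02 s03 s12 s13 s21 s23 s31 s32 = true :=
  B2_spec (B2_spec (B2_spec (B2_spec (chkB_all h1 h2 h3 h4) h5) h6) h7) h8

end Pool.Agent.Run7.h487.FL
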