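import Mathlib

/-! The circular 3-graph: triples of points on a circle whose triangle contains the centre. -/

set_option autoImplicit false
open Finset

namespace Pool.Agent.Run7.h487.Circ

def off (m y z : ℕ) : ℕ := if y ≤ z then z - y else z + (2 * m + 1) - y

def P (m a b c : ℕ) : Prop :=
  a < b ∧ b < c ∧ c ≤ 2 * m ∧ b ≤ a + m ∧ c ≤ b + m ∧ a + m + 1 ≤ c

open scoped Classical in
/-- the circular 3-graph on `2 m + 1` of the `n` vertices -/
noncomputable def CH (n m : ℕ) : Finset (Finset (Fin n)) :=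
  univ.filter fun e => ∃ a b c : Fin n, P m a b c ∧ e = {a, b, c}

open scoped Classical in
theorem CH_card {n m : ℕ} : ∀ e ∈ CH n m, e.card = 3 := by
  intro e he
  obtain ⟨a, b, c, hP, rfl⟩ := (mem_filter.mp he).2
  obtain ⟨h1, h2, -⟩ := hP
  rw [card_eq_three]
  exact ⟨a, b, c, fun h => by rw [h] at h1; omega, fun h => by rw [h] at h1; omega,
    fun h => by rw [h] at h2; omega, rfl⟩

/-- arc from `y` to `z` -/
def A (m y z : ℕ) : Prop := off m y z ≤ m

open scoped Classical in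
theorem mem_cases {n m : ℕ} {x y z : Fin n} (h : ({x, y, z} : Finset (Fin n)) ∈ CH n m) :
    ((A m x y ∧ A m y z ∧ A m z x) ∨ (A m y x ∧ A m z y ∧ A m x z)) ∧
      (x : ℕ) ≠ y ∧ (y : ℕ) ≠ z ∧ (x : ℕ) ≠ z ∧ (x : ℕ) ≤ 2 * m ∧ (y : ℕ) ≤ 2 * m ∧
      (z : ℕ) ≤ 2 * m := by
  have hc := CH_card _ h
  have hd : x ≠ y ∧ y ≠ z ∧ x ≠ z := by
    refine ⟨?_, ?_, ?_⟩ <;> intro e <;> subst e
    · have : ({x, x, z} : Finset (Fin n)).card ≤ 2 := by
        rw [insert_eq_of_mem (mem_insert_self _ _)]; exact card_le_two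
      omega
    · have : ({x, y, y} : Finset (Fin n)).card ≤ 2 := by
        rw [insert_eq_of_mem (a := y) (s := {y}) (mem_singleton_self _)]; exact card_le_two
      omega
    · have : ({x, y, x} : Finset (Fin n)).card ≤ 2 := by
        rw [insert_eq_of_mem (by simp)]; exact card_le_two
      omega
  obtain ⟨a, b, c, hP, he⟩ := (mem_filter.mp h).2
  have hx : x = a ∨ x = b ∨ x = c := by
    have : x ∈ ({a, b, c} : Finset (Fin n)) := by rw [← he]; simp
    simpa using this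
  have hy : y = a ∨ y = b ∨ y = c := by
    have : y ∈ ({a, b, c} : Finset (Fin n)) := by rw [← he]; simp
    simpa using this
  have hz : z = a ∨ z = b ∨ z = c := by
    have : z ∈ ({a, b, c} : Finset (Fin n)) := by rw [← he]; simp
    simpa using this
  obtain ⟨h1, h2, h3⟩ := hd
  obtain ⟨p1, p2, p3, p4, p5, p6⟩ := hP
  have q1 : A m a b := by unfold A off; split_ifs <;> omega
  have q2 : A m b c := by unfold A off; split_ifs <;> omega
  have q3 : A m c a := by unfold A off; split_ifs <;> omega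
  have key : ((A m x y ∧ A m y z ∧ A m z x) ∨ (A m y x ∧ A m z y ∧ A m x z)) := by
    rcases hx with rfl | rfl | rfl <;> rcases hy with rfl | rfl | rfl <;>
      rcases hz with rfl | rfl | rfl <;>
      first
      | exact absurd rfl h1
      | exact absurd rfl h2
      | exact absurd rfl h3
      | exact Or.inl ⟨q1, q2, q3⟩
      | exact Or.inl ⟨q2, q3, q1⟩
      | exact Or.inl ⟨q3, q1, q2⟩
      | exact Or.inr ⟨q1, q3, q2⟩
      | exact Or.inr ⟨q2, q1, q3⟩
      | exact Or.inr ⟨q3, q2, q1⟩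
  refine ⟨key, fun e => h1 (Fin.ext e), fun e => h2 (Fin.ext e), fun e => h3 (Fin.ext e), ?_, ?_, ?_⟩
  · rcases hx with rfl | rfl | rfl <;> omega
  · rcases hy with rfl | rfl | rfl <;> omega
  · rcases hz with rfl | rfl | rfl <;> omega

theorem A_asymm {m y z : ℕ} (hy : y ≤ 2 * m) (hz : z ≤ 2 * m) (h : y ≠ z) (h1 : A m y z) :
    ¬ A m z y := by
  unfold A off at *
  split_ifs at * <;> omega

theorem trans_out {m y u w : ℕ} (hy : y ≤ 2 * m) (hu : u ≤ 2 * m) (hw : w ≤ 2 * m) (h : u ≠ w)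
    (h1 : A m y u) (h2 : A m y w) (h3 : A m u w) : off m y u < off m y w := by
  unfold A off at *
  split_ifs at * <;> omega

theorem f32_free {n m : ℕ} : ¬ ∃ f : Fin 5 → Fin n, Function.Injective f ∧
    ({f 0, f 1, f 2} : Finset (Fin n)) ∈ CH n m ∧
    ({f 0, f 3, f 4} : Finset (Fin n)) ∈ CH n m ∧
    ({f 1, f 3, f 4} : Finset (Fin n)) ∈ CH n m ∧
    ({f 2, f 3, f 4} : Finset (Fin n)) ∈ CH n m := by
  rintro ⟨f, -, h0, h1, h2, h3⟩
  obtain ⟨c0, a1, a2, a3, b1, b2, b3⟩ := mem_cases h0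
  obtain ⟨c1, d1, d2, d3, e1, e2, e3⟩ := mem_cases h1
  obtain ⟨c2, -, -, -, -, -, -⟩ := mem_cases h2
  obtain ⟨c3, -, -, -, -, -, -⟩ := mem_cases h3
  by_cases hA : A m (f 3) (f 4)
  · have hn := A_asymm e2 e3 d2 hA
    have g0 : A m (f 4) (f 0) := by
      rcases c1 with h | h
      · exact h.2.2
      · exact absurd h.2.1 hn
    have g1 : A m (f 4) (f 1) := by
      rcases c2 with h | h
      · exact h.2.2
      · exact absurd h.2.1 hn
    have g2 : A m (f 4) (f 2) := by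
      rcases c3 with h | h
      · exact h.2.2
      · exact absurd h.2.1 hn
    rcases c0 with ⟨x1, x2, x3⟩ | ⟨x1, x2, x3⟩
    · have y1 := trans_out e3 b1 b2 a1 g0 g1 x1
      have y2 := trans_out e3 b2 b3 a2 g1 g2 x2
      have y3 := trans_out e3 b3 b1 a3.symm g2 g0 x3
      omega
    · have y1 := trans_out e3 b2 b1 a1.symm g1 g0 x1
      have y2 := trans_out e3 b3 b2 a2.symm g2 g1 x2
      have y3 := trans_out e3 b1 b3 a3 g0 g2 x3
      omega
  · have g0 : A m (f 3) (f 0) := by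
      rcases c1 with h | h
      · exact absurd h.2.1 hA
      · exact h.1
    have g1 : A m (f 3) (f 1) := by
      rcases c2 with h | h
      · exact absurd h.2.1 hA
      · exact h.1
    have g2 : A m (f 3) (f 2) := by
      rcases c3 with h | h
      · exact absurd h.2.1 hA
      · exact h.1
    rcases c0 with ⟨x1, x2, x3⟩ | ⟨x1, x2, x3⟩
    · have y1 := trans_out e2 b1 b2 a1 g0 g1 x1
      have y2 := trans_out e2 b2 b3 a2 g1 g2 x2
      have y3 := trans_out e2 b3 b1 a3.symm g2 g0 x3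
      omega
    · have y1 := trans_out e2 b2 b1 a1.symm g1 g0 x1
      have y2 := trans_out e2 b3 b2 a2.symm g2 g1 x2
      have y3 := trans_out e2 b1 b3 a3 g0 g2 x3
      omega

open scoped Classical in
theorem no_odd {n m : ℕ} (v : Fin n) (k : ℕ) (hk : Odd k) :
    ¬ ∃ c : Fin k → Fin n, Function.Injective c ∧ (∀ i, c i ≠ v) ∧
      ∀ i : Fin k, ({v, c i, c (finRotate k i)} : Finset (Fin n)) ∈ CH n m := by
  rintro ⟨c, -, -, h⟩
  let g : Fin k → ℕ := fun i => if A m v (c i) then 1 else 0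
  have hg : ∀ i, g i + g (finRotate k i) = 1 := by
    intro i
    obtain ⟨c0, a1, a2, a3, b1, b2, b3⟩ := mem_cases (h i)
    rcases c0 with ⟨x1, x2, x3⟩ | ⟨x1, x2, x3⟩
    · have := A_asymm b3 b1 a3.symm x3
      simp only [g, if_pos x1, if_neg this]
    · have := A_asymm b2 b1 a1.symm x1
      simp only [g, if_pos x3, if_neg this]
  have h1 : ∑ i, (g i + g (finRotate k i)) = k := by
    rw [sum_congr rfl fun i _ => hg i]
    simp
  rw [sum_add_distrib, Equiv.sum_comp (finRotate k) g] at h1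
  obtain ⟨j, hj⟩ := hk
  omega

open scoped Classical in
theorem card_lower {n m : ℕ} (hn : 2 * m + 1 ≤ n) :
    ∑ t ∈ range m, (t + 1) * (t + 1) ≤ (CH n m).card := by
  have e : ∑ t ∈ range m, (t + 1) * (t + 1)
      = ((range m).sigma fun t => range (t + 1) ×ˢ range (t + 1)).card := by
    rw [card_sigma]
    exact sum_congr rfl fun t _ => by rw [card_product, card_range]
  rw [e]
  have hpos : 0 < n := by omega
  let F : ℕ → Fin n := fun x => if h : x < n then ⟨x, h⟩ else ⟨0, hpos⟩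
  have hF : ∀ x, x < n → (F x : ℕ) = x := fun x hx => by simp only [F, dif_pos hx]
  refine card_le_card_of_injOn
    (fun p => {F p.2.2, F (p.2.2 + m - p.2.1), F (p.2.2 + 2 * m - p.1)}) ?_ ?_
  · rintro ⟨t, u, w⟩ hp
    have hp' := mem_coe.mp hp
    rw [mem_sigma, mem_product, mem_range, mem_range, mem_range] at hp'
    obtain ⟨h1, h2, h3⟩ := hp'
    simp only at h1 h2 h3
    rw [mem_coe]
    refine mem_filter.mpr ⟨mem_univ _, _, _, _, ?_, rfl⟩
    simp only
    have e1 := hF w (by omega)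
    have e2 := hF (w + m - u) (by omega)
    have e3 := hF (w + 2 * m - t) (by omega)
    unfold P
    rw [e1, e2, e3]
    omega
  · rintro ⟨t, u, w⟩ hp ⟨t', u', w'⟩ hp' h
    have hp1 := mem_coe.mp hp
    rw [mem_sigma, mem_product, mem_range, mem_range, mem_range] at hp1
    obtain ⟨h1, h2, h3⟩ := hp1
    have hp2 := mem_coe.mp hp'
    rw [mem_sigma, mem_product, mem_range, mem_range, mem_range] at hp2
    obtain ⟨h1', h2', h3'⟩ := hp2
    simp only at h1 h2 h3 h1' h2' h3' h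
    have e1 := hF w (by omega)
    have e2 := hF (w + m - u) (by omega)
    have e3 := hF (w + 2 * m - t) (by omega)
    have e1' := hF w' (by omega)
    have e2' := hF (w' + m - u') (by omega)
    have e3' := hF (w' + 2 * m - t') (by omega)
    generalize F w = A0 at *
    generalize F (w + m - u) = B0 at *
    generalize F (w + 2 * m - t) = C0 at *
    generalize F w' = A1 at *
    generalize F (w' + m - u') = B1 at *
    generalize F (w' + 2 * m - t') = C1 at *
    have m1 : (A0 : ℕ) = A1 ∨ (A0 : ℕ) = B1 ∨ (A0 : ℕ) = C1 := by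
      have : A0 ∈ ({A1, B1, C1} : Finset (Fin n)) := by rw [← h]; simp
      simpa [Fin.ext_iff] using this
    have m2 : (B0 : ℕ) = A1 ∨ (B0 : ℕ) = B1 ∨ (B0 : ℕ) = C1 := by
      have : B0 ∈ ({A1, B1, C1} : Finset (Fin n)) := by rw [← h]; simp
      simpa [Fin.ext_iff] using this
    have m3 : (C0 : ℕ) = A1 ∨ (C0 : ℕ) = B1 ∨ (C0 : ℕ) = C1 := by
      have : C0 ∈ ({A1, B1, C1} : Finset (Fin n)) := by rw [← h]; simp
      simpa [Fin.ext_iff] using this
    have r : w = w' ∧ t = t' ∧ u = u' := by omega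
    obtain ⟨rfl, rfl, rfl⟩ := r
    rfl

theorem cube_sum (m : ℕ) : (m : ℝ) ^ 3 ≤ 3 * ((∑ t ∈ range m, (t + 1) * (t + 1) : ℕ) : ℝ) := by
  induction m with
  | zero => simp
  | succ m ih =>
    rw [sum_range_succ]
    push_cast
    push_cast at ih
    nlinarith [ih, (Nat.cast_nonneg m : (0 : ℝ) ≤ (m : ℝ))]

theorem choose3_le (n : ℕ) : ((n.choose 3 : ℕ) : ℝ) ≤ (n : ℝ) ^ 3 / 6 := by
  have h := Nat.choose_le_pow_div (α := ℝ) 3 n
  have h6 : ((Nat.factorial 3 : ℕ) : ℝ) = 6 := by norm_num [Nat.factorial]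
  rw [h6] at h
  exact h

theorem lower (ε : ℝ) (hε : 0 < ε) : ∃ N : ℕ, ∀ n : ℕ, N ≤ n →
    (1 / 4 - ε) * ((n.choose 3 : ℕ) : ℝ) ≤ ((CH n ((n - 1) / 2)).card : ℝ) := by
  obtain ⟨K, hK⟩ := exists_nat_gt (3 / (4 * ε))
  refine ⟨2 * K + 4, fun n hn => ?_⟩
  set m := (n - 1) / 2 with hm
  have h1 : 2 * m + 1 ≤ n := by omega
  have h2 : n ≤ 2 * (m + 1) := by omega
  have h3 : K ≤ m := by omega
  have c1 := card_lower (n := n) (m := m) h1
  have c2 : ((∑ t ∈ range m, (t + 1) * (t + 1) : ℕ) : ℝ) ≤ ((CH n m).card : ℝ) := by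
    exact_mod_cast c1
  have c3 := cube_sum m
  have c4 := choose3_le n
  have hM : (0 : ℝ) ≤ (m : ℝ) := Nat.cast_nonneg m
  have hMK : 3 / (4 * ε) < (m : ℝ) := lt_of_lt_of_le hK (by exact_mod_cast h3)
  have hm4 : 3 < (m : ℝ) * (4 * ε) := by
    rwa [div_lt_iff₀ (by positivity)] at hMK
  have hc0 : (0 : ℝ) ≤ ((n.choose 3 : ℕ) : ℝ) := Nat.cast_nonneg _
  rcases le_or_gt (1 / 4 - ε) 0 with hneg | hpos
  · have : (1 / 4 - ε) * ((n.choose 3 : ℕ) : ℝ) ≤ 0 := mul_nonpos_of_nonpos_of_nonneg hneg hc0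
    exact this.trans (Nat.cast_nonneg _)
  · have hn2 : (n : ℝ) ≤ 2 * ((m : ℝ) + 1) := by exact_mod_cast h2
    have hn3 : (n : ℝ) ^ 3 ≤ (2 * ((m : ℝ) + 1)) ^ 3 :=
      pow_le_pow_left₀ (Nat.cast_nonneg _) hn2 3
    have h5 : (1 / 4 - ε) * ((n.choose 3 : ℕ) : ℝ)
        ≤ (1 / 4 - ε) * ((2 * ((m : ℝ) + 1)) ^ 3 / 6) :=
      mul_le_mul_of_nonneg_left (by linarith) hpos.le
    have h6 : (1 / 4 - ε) * ((2 * ((m : ℝ) + 1)) ^ 3 / 6) ≤ (m : ℝ) ^ 3 / 3 := by
      have e : (1 / 4 - ε) * ((2 * ((m : ℝ) + 1)) ^ 3 / 6)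
          = ((m : ℝ) + 1) ^ 3 / 3 - (4 * ε) * ((m : ℝ) + 1) ^ 3 / 3 := by ring
      rw [e]
      have h7 : 3 * ((m : ℝ) + 1) ^ 2 ≤ (4 * ε) * ((m : ℝ) + 1) ^ 3 := by
        have : 3 ≤ (4 * ε) * ((m : ℝ) + 1) := by nlinarith
        calc 3 * ((m : ℝ) + 1) ^ 2 ≤ ((4 * ε) * ((m : ℝ) + 1)) * ((m : ℝ) + 1) ^ 2 :=
              mul_le_mul_of_nonneg_right this (by positivity)
          _ = _ := by ring
      nlinarith
    linarith

end Pool.Agent.Run7.h487.Circ
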