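import Pool.Agent.W38.TO.Sum5
import Pool.Agent.H122R2.FdF.FlagAux

/-! Flag averaging for 3-graphs with 2-coloured links, five vertices. -/

set_option autoImplicit false
open Finset

namespace Pool.Agent.Run7.h487.FL

open Pool.Agent.H122R2.FdF Pool.Agent.H122R2.FdF.K1 Pool.Agent.W38.TO

/-- code of three roots -/
def rc (ab ac bc ba ca cb e : ℕ) : ℕ :=
  Nat.add (Nat.mul 8 (Nat.xor ab ac)) (Nat.add (Nat.mul 4 (Nat.xor bc ba))
    (Nat.add (Nat.mul 2 (Nat.xor ca cb)) e))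

/-- code of the attachment of a vertex to three roots -/
def ak (ax ab bx bc cx ca xa xb xc e1 e2 e3 : ℕ) : ℕ :=
  Nat.add (Nat.mul 128 (Nat.xor ax ab)) (Nat.add (Nat.mul 64 (Nat.xor bx bc))
    (Nat.add (Nat.mul 32 (Nat.xor cx ca)) (Nat.add (Nat.mul 16 (Nat.xor xb xa))
    (Nat.add (Nat.mul 8 (Nat.xor xc xa)) (Nat.add (Nat.mul 4 e1) (Nat.add (Nat.mul 2 e2) e3))))))

section
variable {V : Type} (s : V → V → ℕ) (E : V → V → V → ℕ)

def R3 (a b c : V) : ℕ := rc (s a b) (s a c) (s b c) (s b a) (s c a) (s c b) (E a b c)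

def AK (a b c x : V) : ℕ :=
  ak (s a x) (s a b) (s b x) (s b c) (s c x) (s c a) (s x a) (s x b) (s x c)
    (E a b x) (E b c x) (E a c x)

def G3 (q3 : ℕ → ℕ → ℕ → ℕ) (a b c d e : V) : ℕ := q3 (R3 s E a b c) (AK s E a b c d) (AK s E a b c e)
def G1 (q1 : ℕ → ℕ → ℕ) (a b c d e : V) : ℕ := q1 (R3 s E a b c) (R3 s E a d e)

/-- the total over the 10 triples and the 15 splittings of five vertices -/
def LF (q3 : ℕ → ℕ → ℕ → ℕ) (q1 : ℕ → ℕ → ℕ) (x : Fin 5 → V) : ℕ :=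
  (G3 s E q3 (x 0) (x 1) (x 2) (x 3) (x 4) +
      (G3 s E q3 (x 0) (x 1) (x 3) (x 2) (x 4) +
      (G3 s E q3 (x 0) (x 1) (x 4) (x 2) (x 3) +
      (G3 s E q3 (x 0) (x 2) (x 3) (x 1) (x 4) +
      (G3 s E q3 (x 0) (x 2) (x 4) (x 1) (x 3) +
      (G3 s E q3 (x 0) (x 3) (x 4) (x 1) (x 2) +
      (G3 s E q3 (x 1) (x 2) (x 3) (x 0) (x 4) +
      (G3 s E q3 (x 1) (x 2) (x 4) (x 0) (x 3) +
      (G3 s E q3 (x 1) (x 3) (x 4) (x 0) (x 2) +
      G3 s E q3 (x 2) (x 3) (x 4) (x 0) (x 1))))))))))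
    + (G1 s E q1 (x 0) (x 1) (x 2) (x 3) (x 4) +
      (G1 s E q1 (x 0) (x 1) (x 3) (x 2) (x 4) +
      (G1 s E q1 (x 0) (x 1) (x 4) (x 2) (x 3) +
      (G1 s E q1 (x 1) (x 0) (x 2) (x 3) (x 4) +
      (G1 s E q1 (x 1) (x 0) (x 3) (x 2) (x 4) +
      (G1 s E q1 (x 1) (x 0) (x 4) (x 2) (x 3) +
      (G1 s E q1 (x 2) (x 0) (x 1) (x 3) (x 4) +
      (G1 s E q1 (x 2) (x 0) (x 3) (x 1) (x 4) +
      (G1 s E q1 (x 2) (x 0) (x 4) (x 1) (x 3) +
      (G1 s E q1 (x 3) (x 0) (x 1) (x 2) (x 4) +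
      (G1 s E q1 (x 3) (x 0) (x 2) (x 1) (x 4) +
      (G1 s E q1 (x 3) (x 0) (x 4) (x 1) (x 2) +
      (G1 s E q1 (x 4) (x 0) (x 1) (x 2) (x 3) +
      (G1 s E q1 (x 4) (x 0) (x 2) (x 1) (x 3) +
      G1 s E q1 (x 4) (x 0) (x 3) (x 1) (x 2)))))))))))))))
end

theorem xor_le_one {a b : ℕ} (ha : a ≤ 1) (hb : b ≤ 1) : Nat.xor a b ≤ 1 := by
  interval_cases a <;> interval_cases b <;> decide

theorem rc_lt {ab ac bc ba ca cb e : ℕ} (h1 : ab ≤ 1) (h2 : ac ≤ 1) (h3 : bc ≤ 1) (h4 : ba ≤ 1)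
    (h5 : ca ≤ 1) (h6 : cb ≤ 1) (h7 : e ≤ 1) : rc ab ac bc ba ca cb e < 16 := by
  have a := xor_le_one h1 h2
  have b := xor_le_one h3 h4
  have c := xor_le_one h5 h6
  show 8 * Nat.xor ab ac + (4 * Nat.xor bc ba + (2 * Nat.xor ca cb + e)) < 16
  omega

theorem ak_lt {ax ab bx bc cx ca xa xb xc e1 e2 e3 : ℕ} (h1 : ax ≤ 1) (h2 : ab ≤ 1) (h3 : bx ≤ 1)
    (h4 : bc ≤ 1) (h5 : cx ≤ 1) (h6 : ca ≤ 1) (h7 : xa ≤ 1) (h8 : xb ≤ 1) (h9 : xc ≤ 1)
    (k1 : e1 ≤ 1) (k2 : e2 ≤ 1) (k3 : e3 ≤ 1) : ak ax ab bx bc cx ca xa xb xc e1 e2 e3 < 256 := by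
  have a := xor_le_one h1 h2
  have b := xor_le_one h3 h4
  have c := xor_le_one h5 h6
  have d := xor_le_one h8 h7
  have e := xor_le_one h9 h7
  show 128 * Nat.xor ax ab + (64 * Nat.xor bx bc + (32 * Nat.xor cx ca + (16 * Nat.xor xb xa +
    (8 * Nat.xor xc xa + (4 * e1 + (2 * e2 + e3)))))) < 256
  omega

theorem psdm {V : Type} [Fintype V] (w : V → ℝ) (K : ℕ) (m : ℕ → ℝ) (hm : ∀ k, 0 ≤ m k)
    (u : ℕ → V → ℝ) :
    0 ≤ ∑ d, ∑ e, w d * w e * ∑ k ∈ range K, m k * (u k d * u k e) := by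
  have h := psdw w (range K) (fun k d => Real.sqrt (m k) * u k d)
  refine le_of_le_of_eq h ?_
  refine sum_congr rfl fun d _ => sum_congr rfl fun e _ => ?_
  congr 1
  refine sum_congr rfl fun k _ => ?_
  have := Real.mul_self_sqrt (hm k)
  calc Real.sqrt (m k) * u k d * (Real.sqrt (m k) * u k e)
      = (Real.sqrt (m k) * Real.sqrt (m k)) * (u k d * u k e) := by ring
    _ = _ := by rw [this]

theorem low3 {V : Type} [Fintype V] (w : V → ℝ) (hw : ∀ v, 0 ≤ w v) (h1 : ∑ v, w v = 1)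
    (K : ℕ) (Φ : V → V → V → V → V → ℝ) (m : V → V → V → ℕ → ℝ) (hm : ∀ a b c k, 0 ≤ m a b c k)
    (u : V → V → V → ℕ → V → ℝ) (τ : V → V → V → ℝ)
    (hΦ : ∀ a b c d e, Φ a b c d e =
      ∑ k ∈ range K, m a b c k * (u a b c k d * u a b c k e) + τ a b c) :
    ∑ a, ∑ b, ∑ c, w a * w b * w c * τ a b c
      ≤ ∑ x : Fin 5 → V, (∏ i, w (x i)) * Φ (x 0) (x 1) (x 2) (x 3) (x 4) := by
  rw [convw w Φ]
  refine sum_le_sum fun a _ => sum_le_sum fun b _ => sum_le_sum fun c _ => ?_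
  have h3 : 0 ≤ w a * w b * w c := mul_nonneg (mul_nonneg (hw a) (hw b)) (hw c)
  have hp := psdm w K (m a b c) (hm a b c) (u a b c)
  have e3 : ∑ d, ∑ e, w a * w b * w c * w d * w e * Φ a b c d e
      = w a * w b * w c * ((∑ d, ∑ e, w d * w e *
        ∑ k ∈ range K, m a b c k * (u a b c k d * u a b c k e)) + τ a b c) := by
    have s1 : ∑ d, ∑ e, w d * w e * τ a b c = τ a b c := by
      simp only [mul_assoc, ← mul_sum, sum1 w h1]
    rw [← s1, ← sum_add_distrib, mul_sum]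
    refine sum_congr rfl fun d _ => ?_
    rw [← sum_add_distrib, mul_sum]
    refine sum_congr rfl fun e _ => ?_
    rw [hΦ a b c d e]
    ring
  rw [e3]
  refine mul_le_mul_of_nonneg_left ?_ h3
  linarith

theorem low1 {V : Type} [Fintype V] (w : V → ℝ) (hw : ∀ v, 0 ≤ w v) (h1 : ∑ v, w v = 1)
    (K : ℕ) (Φ : V → V → V → V → V → ℝ) (m : ℕ → ℝ) (hm : ∀ k, 0 ≤ m k)
    (φ : ℕ → V → V → V → ℝ) (O : ℝ)
    (hΦ : ∀ a b c d e, Φ a b c d e =
      ∑ k ∈ range K, m k * (φ k a b c * φ k a d e) + O) :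
    O ≤ ∑ x : Fin 5 → V, (∏ i, w (x i)) * Φ (x 0) (x 1) (x 2) (x 3) (x 4) := by
  rw [convw w Φ]
  have hO : O = ∑ a, w a * O := (sum1 w h1 O).symm
  rw [hO]
  refine sum_le_sum fun a _ => ?_
  have e1 : ∑ b, ∑ c, ∑ d, ∑ e, w a * w b * w c * w d * w e * Φ a b c d e
      = w a * (∑ k ∈ range K, m k * ((∑ b, ∑ c, w b * w c * φ k a b c) *
          (∑ b, ∑ c, w b * w c * φ k a b c)) + O) := by
    have s1 : ∑ b, ∑ c, ∑ d, ∑ e, w b * w c * w d * w e * O = O := by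
      simp only [mul_assoc, ← mul_sum, sum1 w h1]
    have s2 : ∀ k, m k * ((∑ b, ∑ c, w b * w c * φ k a b c) * (∑ b, ∑ c, w b * w c * φ k a b c))
        = ∑ b, ∑ c, ∑ d, ∑ e, w b * w c * w d * w e * (m k * (φ k a b c * φ k a d e)) := by
      intro k
      rw [sum_mul, mul_sum]
      refine sum_congr rfl fun b _ => ?_
      rw [sum_mul, mul_sum]
      refine sum_congr rfl fun c _ => ?_
      rw [mul_sum, mul_sum]
      refine sum_congr rfl fun d _ => ?_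
      rw [mul_sum, mul_sum]
      refine sum_congr rfl fun e _ => ?_
      ring
    have s3 : ∑ k ∈ range K, m k * ((∑ b, ∑ c, w b * w c * φ k a b c) *
          (∑ b, ∑ c, w b * w c * φ k a b c))
        = ∑ b, ∑ c, ∑ d, ∑ e, w b * w c * w d * w e *
          ∑ k ∈ range K, (m k * (φ k a b c * φ k a d e)) := by
      rw [sum_congr rfl fun k _ => s2 k, sum_comm]
      refine sum_congr rfl fun b _ => ?_
      rw [sum_comm]
      refine sum_congr rfl fun c _ => ?_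
      rw [sum_comm]
      refine sum_congr rfl fun d _ => ?_
      rw [sum_comm]
      refine sum_congr rfl fun e _ => ?_
      rw [mul_sum]
    rw [s3]
    nth_rewrite 1 [← s1]
    simp only [← sum_add_distrib, mul_sum]
    refine sum_congr rfl fun b _ => sum_congr rfl fun c _ => sum_congr rfl fun d _ =>
      sum_congr rfl fun e _ => ?_
    rw [hΦ a b c d e]
    simp only [mul_add, mul_sum]
    congr 1
    · exact sum_congr rfl fun k _ => by ring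
    · ring
  rw [e1]
  refine mul_le_mul_of_nonneg_left ?_ (hw a)
  have : 0 ≤ ∑ k ∈ range K, m k * ((∑ b, ∑ c, w b * w c * φ k a b c) *
      (∑ b, ∑ c, w b * w c * φ k a b c)) :=
    sum_nonneg fun k _ => mul_nonneg (hm k) (mul_self_nonneg _)
  linarith

open scoped Classical in
theorem flagL {V : Type} [Fintype V] (hn : 0 < Fintype.card V) (s : V → V → ℕ)
    (E : V → V → V → ℕ) (hs : ∀ x y, s x y ≤ 1) (hE : ∀ x y z, E x y z ≤ 1)
    (K3 K1 : ℕ) (C W : ℝ) (hW : 0 ≤ W) (q3 l3 : ℕ → ℕ → ℕ → ℕ) (m3 : ℕ → ℕ → ℕ)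
    (q1 l1 : ℕ → ℕ → ℕ) (m1 : ℕ → ℕ) (B3 B1 O3 O1 : ℤ) (t : ℕ → ℤ)
    (hq3 : ∀ c i j, c < 16 → i < 256 → j < 256 → (q3 c i j : ℤ) =
      ∑ k ∈ range K3, (m3 c k : ℤ) * (((l3 c i k : ℤ) - B3) * ((l3 c j k : ℤ) - B3)) + O3 + t c)
    (hq1 : ∀ i j, i < 16 → j < 16 → (q1 i j : ℤ) =
      ∑ k ∈ range K1, (m1 k : ℤ) * (((l1 i k : ℤ) - B1) * ((l1 j k : ℤ) - B1)) + O1)
    (hinj : ∀ x : Fin 5 → V, Function.Injective x → (LF s E q3 q1 x : ℝ) ≤ C)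
    (hall : ∀ x : Fin 5 → V, (LF s E q3 q1 x : ℝ) ≤ C + W) :
    10 * ((O3 : ℝ) + (∑ a, ∑ b, ∑ c, (t (R3 s E a b c) : ℝ)) / (Fintype.card V : ℝ) ^ 3)
      + 15 * (O1 : ℝ) ≤ C + 10 * W / (Fintype.card V : ℝ) := by
  obtain ⟨w, hwd⟩ : ∃ w : V → ℝ, w = fun _ => 1 / (Fintype.card V : ℝ) := ⟨_, rfl⟩
  have hNp : (0 : ℝ) < (Fintype.card V : ℝ) := by exact_mod_cast hn
  have hw : ∀ v, 0 ≤ w v := fun v => by rw [hwd]; positivity
  have h1 : ∑ v, w v = 1 := by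
    rw [hwd, sum_const, card_univ, nsmul_eq_mul]
    field_simp
  have hR : ∀ a b c, R3 s E a b c < 16 := fun a b c =>
    rc_lt (hs _ _) (hs _ _) (hs _ _) (hs _ _) (hs _ _) (hs _ _) (hE _ _ _)
  have hA : ∀ a b c x, AK s E a b c x < 256 := fun a b c x =>
    ak_lt (hs _ _) (hs _ _) (hs _ _) (hs _ _) (hs _ _) (hs _ _) (hs _ _) (hs _ _) (hs _ _)
      (hE _ _ _) (hE _ _ _) (hE _ _ _)
  have L3 := low3 w hw h1 K3 (fun a b c d e => (G3 s E q3 a b c d e : ℝ))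
    (fun a b c k => (m3 (R3 s E a b c) k : ℝ)) (fun a b c k => Nat.cast_nonneg _)
    (fun a b c k d => (l3 (R3 s E a b c) (AK s E a b c d) k : ℝ) - B3)
    (fun a b c => (O3 : ℝ) + (t (R3 s E a b c) : ℝ)) (fun a b c d e => by
      have := hq3 (R3 s E a b c) (AK s E a b c d) (AK s E a b c e) (hR _ _ _) (hA _ _ _ _)
        (hA _ _ _ _)
      have h2 : ((G3 s E q3 a b c d e : ℤ) : ℝ) = _ := congrArg (fun z : ℤ => (z : ℝ)) this
      push_cast at h2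
      rw [h2]
      ring)
  have L1 := low1 w hw h1 K1 (fun a b c d e => (G1 s E q1 a b c d e : ℝ))
    (fun k => (m1 k : ℝ)) (fun k => Nat.cast_nonneg _)
    (fun k a b c => (l1 (R3 s E a b c) k : ℝ) - B1) (O1 : ℝ) (fun a b c d e => by
      have := hq1 (R3 s E a b c) (R3 s E a d e) (hR _ _ _) (hR _ _ _)
      have h2 : ((G1 s E q1 a b c d e : ℤ) : ℝ) = _ := congrArg (fun z : ℤ => (z : ℝ)) this
      push_cast at h2
      exact h2)
  have f3 : ∀ i0 i1 i2 i3 i4 : Fin 5, Function.Bijective ![i0, i1, i2, i3, i4] →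
      ∑ x : Fin 5 → V, (∏ i, w (x i)) * (G3 s E q3 (x i0) (x i1) (x i2) (x i3) (x i4) : ℝ)
      = ∑ x : Fin 5 → V, (∏ i, w (x i)) * (G3 s E q3 (x 0) (x 1) (x 2) (x 3) (x 4) : ℝ) :=
    fun i0 i1 i2 i3 i4 hg =>
      psumw w (fun a b c d e => (G3 s E q3 a b c d e : ℝ)) ![i0, i1, i2, i3, i4] hg
  have f1 : ∀ i0 i1 i2 i3 i4 : Fin 5, Function.Bijective ![i0, i1, i2, i3, i4] →
      ∑ x : Fin 5 → V, (∏ i, w (x i)) * (G1 s E q1 (x i0) (x i1) (x i2) (x i3) (x i4) : ℝ)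
      = ∑ x : Fin 5 → V, (∏ i, w (x i)) * (G1 s E q1 (x 0) (x 1) (x 2) (x 3) (x 4) : ℝ) :=
    fun i0 i1 i2 i3 i4 hg =>
      psumw w (fun a b c d e => (G1 s E q1 a b c d e : ℝ)) ![i0, i1, i2, i3, i4] hg
  have hC : ∑ x : Fin 5 → V, (∏ i, w (x i)) * C = C := by
    rw [convw w (fun _ _ _ _ _ => C)]
    simp only [mul_assoc, ← mul_sum, sum1 w h1]
  have key : ∑ x : Fin 5 → V, (∏ i, w (x i)) * (LF s E q3 q1 x : ℝ)
      ≤ C + 10 * W / (Fintype.card V : ℝ) := by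
    have h2 : ∀ x : Fin 5 → V, (∏ i, w (x i)) * (LF s E q3 q1 x : ℝ) ≤
        (∏ i, w (x i)) * C + (∏ i, w (x i)) * (if Function.Injective x then 0 else W) := by
      intro x
      rw [← mul_add]
      refine mul_le_mul_of_nonneg_left ?_ (prod_nonneg fun i _ => hw _)
      by_cases hi : Function.Injective x
      · rw [if_pos hi, add_zero]; exact hinj x hi
      · rw [if_neg hi]; exact hall x
    refine le_trans (sum_le_sum fun x _ => h2 x) ?_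
    rw [sum_add_distrib, hC]
    have h3 := ninj5 (V := V) W hW hn
    rw [hwd]
    linarith
  have e : ∑ x : Fin 5 → V, (∏ i, w (x i)) * (LF s E q3 q1 x : ℝ)
      = 10 * (∑ x : Fin 5 → V, (∏ i, w (x i)) * (G3 s E q3 (x 0) (x 1) (x 2) (x 3) (x 4) : ℝ))
      + 15 * (∑ x : Fin 5 → V, (∏ i, w (x i)) * (G1 s E q1 (x 0) (x 1) (x 2) (x 3) (x 4) : ℝ)) := by
    simp only [LF, Nat.cast_add, mul_add, sum_add_distrib]
    rw [f3 0 1 3 2 4 (by decide), f3 0 1 4 2 3 (by decide), f3 0 2 3 1 4 (by decide),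
      f3 0 2 4 1 3 (by decide), f3 0 3 4 1 2 (by decide), f3 1 2 3 0 4 (by decide),
      f3 1 2 4 0 3 (by decide), f3 1 3 4 0 2 (by decide), f3 2 3 4 0 1 (by decide),
      f1 0 1 3 2 4 (by decide), f1 0 1 4 2 3 (by decide),
      f1 1 0 2 3 4 (by decide), f1 1 0 3 2 4 (by decide), f1 1 0 4 2 3 (by decide),
      f1 2 0 1 3 4 (by decide), f1 2 0 3 1 4 (by decide), f1 2 0 4 1 3 (by decide),
      f1 3 0 1 2 4 (by decide), f1 3 0 2 1 4 (by decide), f1 3 0 4 1 2 (by decide),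
      f1 4 0 1 2 3 (by decide), f1 4 0 2 1 3 (by decide), f1 4 0 3 1 2 (by decide)]
    ring
  rw [e] at key
  have h5 : ∑ a, ∑ b, ∑ c, w a * w b * w c * ((O3 : ℝ) + (t (R3 s E a b c) : ℝ))
      = (O3 : ℝ) + (∑ a, ∑ b, ∑ c, (t (R3 s E a b c) : ℝ)) / (Fintype.card V : ℝ) ^ 3 := by
    have hO : ∑ a, ∑ b, ∑ c, w a * w b * w c * (O3 : ℝ) = (O3 : ℝ) := by
      simp only [mul_assoc, ← mul_sum, sum1 w h1]
    have ht : ∑ a, ∑ b, ∑ c, w a * w b * w c * (t (R3 s E a b c) : ℝ)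
        = (∑ a, ∑ b, ∑ c, (t (R3 s E a b c) : ℝ)) / (Fintype.card V : ℝ) ^ 3 := by
      rw [hwd]
      simp only [sum_div]
      refine sum_congr rfl fun a _ => sum_congr rfl fun b _ => sum_congr rfl fun c _ => ?_
      field_simp
    simp only [mul_add, sum_add_distrib]
    rw [hO, ht]
  rw [h5] at L3
  linarith

end Pool.Agent.Run7.h487.FL
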