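import Mathlib

/-! A finite graph without cycles of odd length at least five has a 2-colouring with at most
`4 n` ordered monochromatic pairs. -/

set_option autoImplicit false
open Finset

namespace Pool.Agent.Run7.h487.LinkCol

variable {V : Type}

/-- no cycle of odd length at least five -/
def NoLong (G : SimpleGraph V) : Prop :=
  ∀ k : ℕ, 5 ≤ k → Odd k →
    ¬ ∃ c : Fin k → V, Function.Injective c ∧ ∀ i, G.Adj (c i) (c (finRotate k i))

/-- chosen root of the component of `x` -/
noncomputable def rt (G : SimpleGraph V) (x : V) : V := Quot.out (G.connectedComponentMk x)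

/-- level of `x` -/
noncomputable def lv (G : SimpleGraph V) (x : V) : ℕ := G.dist (rt G x) x

theorem rt_reach (G : SimpleGraph V) (x : V) : G.Reachable (rt G x) x := by
  have h : G.connectedComponentMk (rt G x) = G.connectedComponentMk x := Quot.out_eq _
  exact SimpleGraph.ConnectedComponent.exact h

theorem rt_adj {G : SimpleGraph V} {x y : V} (h : G.Adj x y) : rt G x = rt G y := by
  have h1 : G.connectedComponentMk x = G.connectedComponentMk y :=
    SimpleGraph.ConnectedComponent.sound h.reachable
  unfold rt
  rw [h1]

theorem lv_adj {G : SimpleGraph V} {x y : V} (h : G.Adj x y) : lv G y ≤ lv G x + 1 := by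
  unfold lv
  rw [← rt_adj h]
  obtain ⟨w, hw⟩ := (rt_reach G x).exists_walk_length_eq_dist
  have h2 := SimpleGraph.dist_le (w.concat h)
  rw [SimpleGraph.Walk.length_concat, hw] at h2
  exact h2

theorem lv_zero {G : SimpleGraph V} {x : V} (h : lv G x = 0) : x = rt G x := by
  unfold lv at h
  exact ((rt_reach G x).dist_eq_zero_iff.mp h).symm

theorem parent {G : SimpleGraph V} {x : V} {j : ℕ} (h : lv G x = j + 1) :
    ∃ p, G.Adj p x ∧ lv G p = j := by
  obtain ⟨w, hw⟩ := (rt_reach G x).exists_walk_length_eq_dist
  have hl : w.length = j + 1 := by rw [hw]; exact h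
  have hn : ¬ w.Nil := by
    intro hnil
    have hnil := SimpleGraph.Walk.length_eq_zero_iff.mpr hnil
    omega
  have ha := w.adj_penultimate hn
  refine ⟨w.penultimate, ha, ?_⟩
  have h1 : lv G w.penultimate ≤ j := by
    unfold lv
    rw [rt_adj ha]
    have h3 := SimpleGraph.dist_le w.dropLast
    have h4 : w.dropLast.length = j := by
      have := SimpleGraph.Walk.length_dropLast_add_one hn
      omega
    omega
  have h2 := lv_adj ha
  omega

/-- an even path between two vertices of level at most `j`, all levels at most `j` -/
def EP (G : SimpleGraph V) (j : ℕ) (p q : V) : Prop :=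
  ∃ (m : ℕ) (g : ℕ → V), 1 ≤ m ∧ g 0 = p ∧ g (2 * m) = q ∧
    (∀ i, i < 2 * m → G.Adj (g i) (g (i + 1))) ∧
    (∀ i i', i ≤ 2 * m → i' ≤ 2 * m → g i = g i' → i = i') ∧ ∀ i, i ≤ 2 * m → lv G (g i) ≤ j

theorem ep (G : SimpleGraph V) : ∀ (j : ℕ) (p q : V), lv G p = j → lv G q = j → p ≠ q →
    rt G p = rt G q → EP G j p q := by
  intro j
  induction j with
  | zero =>
    intro p q hp hq hne hr
    exact absurd ((lv_zero hp).trans (hr.trans (lv_zero hq).symm)) hne
  | succ j ih =>
    intro p q hp hq hne hr
    obtain ⟨p', hp', lp'⟩ := parent hp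
    obtain ⟨q', hq', lq'⟩ := parent hq
    by_cases hpq : p' = q'
    · refine ⟨1, fun i => if i = 0 then p else if i = 1 then p' else q, le_refl _, by simp, by simp,
        ?_, ?_, ?_⟩
      · intro i hi
        have : i = 0 ∨ i = 1 := by omega
        rcases this with rfl | rfl
        · simpa using hp'.symm
        · simpa [hpq] using hq'
      · intro i i' hi hi' h
        have e1 : p ≠ p' := fun e => by rw [e] at hp; omega
        have e2 : q ≠ p' := fun e => by rw [e] at hq; omega
        have hi2 : i = 0 ∨ i = 1 ∨ i = 2 := by omega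
        have hi3 : i' = 0 ∨ i' = 1 ∨ i' = 2 := by omega
        rcases hi2 with rfl | rfl | rfl <;> rcases hi3 with rfl | rfl | rfl <;>
          simp_all
      · intro i hi
        have hi2 : i = 0 ∨ i = 1 ∨ i = 2 := by omega
        rcases hi2 with rfl | rfl | rfl <;> simp <;> omega
    · obtain ⟨m, g, hm, g0, gm, gadj, ginj, glv⟩ := ih p' q' lp' lq' hpq
        ((rt_adj hp').trans (hr.trans (rt_adj hq').symm))
      refine ⟨m + 1, fun i => if i = 0 then p else if i ≤ 2 * m + 1 then g (i - 1) else q,
        by omega, by simp, ?_, ?_, ?_, ?_⟩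
      · have h1 : ¬ (2 * (m + 1) = 0) := by omega
        have h2 : ¬ (2 * (m + 1) ≤ 2 * m + 1) := by omega
        simp only [h1, h2, if_false]
      · intro i hi
        by_cases h0 : i = 0
        · subst h0
          have h2 : (0 : ℕ) + 1 ≤ 2 * m + 1 := by omega
          simp only [if_true, h2, Nat.add_eq_zero_iff]
          simpa [g0] using hp'.symm
        · by_cases h1 : i + 1 ≤ 2 * m + 1
          · have h2 : i ≤ 2 * m + 1 := by omega
            have h3 : ¬ (i + 1 = 0) := by omega
            simp only [h0, h1, h2, h3, if_true, if_false]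
            have := gadj (i - 1) (by omega)
            rw [show i - 1 + 1 = i + 1 - 1 by omega] at this
            exact this
          · have h2 : i = 2 * m + 1 := by omega
            subst h2
            have h3 : ¬ (2 * m + 1 = 0) := by omega
            have h4 : ¬ (2 * m + 1 + 1 = 0) := by omega
            have h5 : ¬ (2 * m + 1 + 1 ≤ 2 * m + 1) := by omega
            simp only [h3, h4, h5, if_true, if_false, le_refl]
            rw [show 2 * m + 1 - 1 = 2 * m by omega, gm]
            exact hq'
      · have lvp : ∀ i, i ≤ 2 * m → g i ≠ p := fun i hi e => by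
          have := glv i hi; rw [e] at this; omega
        have lvq : ∀ i, i ≤ 2 * m → g i ≠ q := fun i hi e => by
          have := glv i hi; rw [e] at this; omega
        intro i i' hi hi' h
        by_cases h0 : i = 0
        · by_cases h0' : i' = 0
          · omega
          · by_cases h1' : i' ≤ 2 * m + 1
            · simp only [h0, h0', h1', if_true, if_false] at h
              exact absurd h.symm (lvp _ (by omega))
            · simp only [h0, h0', h1', if_true, if_false] at h
              exact absurd h hne
        · by_cases h1 : i ≤ 2 * m + 1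
          · by_cases h0' : i' = 0
            · simp only [h0, h0', h1, if_true, if_false] at h
              exact absurd h (lvp _ (by omega))
            · by_cases h1' : i' ≤ 2 * m + 1
              · simp only [h0, h0', h1, h1', if_true, if_false] at h
                have := ginj (i - 1) (i' - 1) (by omega) (by omega) h
                omega
              · simp only [h0, h0', h1, h1', if_true, if_false] at h
                exact absurd h (lvq _ (by omega))
          · by_cases h0' : i' = 0
            · simp only [h0, h0', h1, if_true, if_false] at h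
              exact absurd h.symm hne
            · by_cases h1' : i' ≤ 2 * m + 1
              · simp only [h0, h0', h1, h1', if_true, if_false] at h
                exact absurd h.symm (lvq _ (by omega))
              · omega
      · intro i hi
        by_cases h0 : i = 0
        · simp only [h0, if_true]; omega
        · by_cases h1 : i ≤ 2 * m + 1
          · simp only [h0, h1, if_true, if_false]
            have := glv (i - 1) (by omega)
            omega
          · simp only [h0, h1, if_false]; omega

/-- a function on `ℕ` gives a cycle -/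
theorem cyc {G : SimpleGraph V} (hG : NoLong G) (m : ℕ) (hm : 1 ≤ m) (c : ℕ → V)
    (hinj : ∀ i i', i ≤ 2 * m + 2 → i' ≤ 2 * m + 2 → c i = c i' → i = i')
    (hadj : ∀ i, i < 2 * m + 2 → G.Adj (c i) (c (i + 1))) (hl : G.Adj (c (2 * m + 2)) (c 0)) :
    False := by
  refine hG (2 * m + 2 + 1) (by omega) ⟨m + 1, by ring⟩ ⟨fun i => c i.val, ?_, ?_⟩
  · intro i i' h
    exact Fin.ext (hinj _ _ (by omega) (by omega) h)
  · intro i
    by_cases hi : i = Fin.last (2 * m + 2)
    · subst hi
      rw [finRotate_last]
      simpa using hl
    · have h1 : ((finRotate (2 * m + 2 + 1) i : Fin (2 * m + 2 + 1)) : ℕ) = i + 1 :=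
        coe_finRotate_of_ne_last hi
      have h2 : (i : ℕ) < 2 * m + 2 := by
        have := i.isLt
        have h3 : (i : ℕ) ≠ 2 * m + 2 := fun e => hi (Fin.ext e)
        omega
      show G.Adj (c i.val) (c (finRotate (2 * m + 2 + 1) i : Fin (2 * m + 2 + 1)).val)
      rw [h1]
      exact hadj _ h2

theorem same_parent {G : SimpleGraph V} (hG : NoLong G) {x y p q : V} (hxy : G.Adj x y)
    (h : lv G x = lv G y) (hp : G.Adj p x) (hlp : lv G p + 1 = lv G x) (hq : G.Adj q y)
    (hlq : lv G q + 1 = lv G y) : p = q := by
  by_contra hne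
  obtain ⟨m, g, hm, g0, gm, gadj, ginj, glv⟩ := ep G (lv G p) p q rfl (by omega) hne
    ((rt_adj hp).trans ((rt_adj hxy).trans (rt_adj hq).symm))
  have lx : ∀ i, i ≤ 2 * m → g i ≠ x := fun i hi e => by
    have := glv i hi; rw [e] at this; omega
  have ly : ∀ i, i ≤ 2 * m → g i ≠ y := fun i hi e => by
    have := glv i hi; rw [e] at this; omega
  refine cyc hG m hm (fun i => if i = 0 then x else if i ≤ 2 * m + 1 then g (i - 1) else y)
    ?_ ?_ ?_
  · intro i i' hi hi' h
    by_cases h0 : i = 0
    · by_cases h0' : i' = 0
      · omega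
      · by_cases h1' : i' ≤ 2 * m + 1
        · simp only [h0, h0', h1', if_true, if_false] at h
          exact absurd h.symm (lx _ (by omega))
        · simp only [h0, h0', h1', if_true, if_false] at h
          exact absurd h hxy.ne
    · by_cases h1 : i ≤ 2 * m + 1
      · by_cases h0' : i' = 0
        · simp only [h0, h0', h1, if_true, if_false] at h
          exact absurd h (lx _ (by omega))
        · by_cases h1' : i' ≤ 2 * m + 1
          · simp only [h0, h0', h1, h1', if_true, if_false] at h
            have := ginj (i - 1) (i' - 1) (by omega) (by omega) h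
            omega
          · simp only [h0, h0', h1, h1', if_true, if_false] at h
            exact absurd h (ly _ (by omega))
      · by_cases h0' : i' = 0
        · simp only [h0, h0', h1, if_true, if_false] at h
          exact absurd h hxy.ne.symm
        · by_cases h1' : i' ≤ 2 * m + 1
          · simp only [h0, h0', h1, h1', if_true, if_false] at h
            exact absurd h.symm (ly _ (by omega))
          · omega
  · intro i hi
    by_cases h0 : i = 0
    · subst h0
      have h2 : (0 : ℕ) + 1 ≤ 2 * m + 1 := by omega
      simp only [if_true, h2, Nat.add_eq_zero_iff]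
      simpa [g0] using hp.symm
    · by_cases h1 : i + 1 ≤ 2 * m + 1
      · have h2 : i ≤ 2 * m + 1 := by omega
        have h3 : ¬ (i + 1 = 0) := by omega
        simp only [h0, h1, h2, h3, if_true, if_false]
        have := gadj (i - 1) (by omega)
        rw [show i - 1 + 1 = i + 1 - 1 by omega] at this
        exact this
      · have h2 : i = 2 * m + 1 := by omega
        subst h2
        have h3 : ¬ (2 * m + 1 = 0) := by omega
        have h4 : ¬ (2 * m + 1 + 1 = 0) := by omega
        have h5 : ¬ (2 * m + 1 + 1 ≤ 2 * m + 1) := by omega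
        simp only [h3, h4, h5, if_true, if_false, le_refl]
        rw [show 2 * m + 1 - 1 = 2 * m by omega, gm]
        exact hq
  · have h4 : ¬ (2 * m + 2 = 0) := by omega
    have h5 : ¬ (2 * m + 2 ≤ 2 * m + 1) := by omega
    simp only [h4, h5, if_true, if_false]
    exact hxy.symm

/-- no path on four vertices inside a level -/
theorem noP4 {G : SimpleGraph V} (hG : NoLong G) {x y w u : V} (h1 : G.Adj x y) (h2 : G.Adj y w)
    (h3 : G.Adj w u) (l1 : lv G x = lv G y) (l2 : lv G y = lv G w) (l3 : lv G w = lv G u)
    (hxw : x ≠ w) (hxu : x ≠ u) (hyu : y ≠ u) : False := by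
  rcases Nat.eq_zero_or_pos (lv G x) with h0 | hpos
  · have e1 := lv_zero h0
    have e2 := lv_zero (l1 ▸ h0)
    exact h1.ne (e1.trans ((rt_adj h1).trans e2.symm))
  · obtain ⟨j, hj⟩ : ∃ j, lv G x = j + 1 := ⟨lv G x - 1, by omega⟩
    obtain ⟨p, hp, lp⟩ := parent hj
    have ly : lv G y = j + 1 := by omega
    have lw : lv G w = j + 1 := by omega
    have lu : lv G u = j + 1 := by omega
    obtain ⟨p2, hp2, lp2⟩ := parent ly
    obtain ⟨p3, hp3, lp3⟩ := parent lw
    obtain ⟨p4, hp4, lp4⟩ := parent lu
    have a1 : lv G p + 1 = lv G x := by omega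
    have a2 : lv G p2 + 1 = lv G y := by omega
    have a3 : lv G p3 + 1 = lv G w := by omega
    have a4 : lv G p4 + 1 = lv G u := by omega
    have e1 := same_parent hG h1 l1 hp a1 hp2 a2
    have e2 := same_parent hG h2 l2 hp2 a2 hp3 a3
    have e3 := same_parent hG h3 l3 hp3 a3 hp4 a4
    have hpu : G.Adj p u := by rw [e1, e2, e3]; exact hp4
    have np : ∀ z, lv G z = j + 1 → p ≠ z := fun z hz e => by rw [e] at lp; omega
    refine hG 5 (le_refl _) ⟨2, rfl⟩ ⟨![p, x, y, w, u], ?_, ?_⟩
    · have n1 := np x hj
      have n2 := np y (by omega)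
      have n3 := np w (by omega)
      have n4 := np u (by omega)
      have n5 := h1.ne
      have n6 := h2.ne
      have n7 := h3.ne
      intro i i' h
      fin_cases i <;> fin_cases i' <;> simp_all
    · intro i
      fin_cases i
      · exact hp
      · exact h1
      · exact h2
      · exact h3
      · exact hpu.symm

open scoped Classical in
/-- the colouring -/
theorem exists_col [Fintype V] (G : SimpleGraph V) (hG : NoLong G) :
    ∃ f : V → Bool, (univ.filter fun p : V × V => G.Adj p.1 p.2 ∧ f p.1 = f p.2).card
      ≤ 4 * Fintype.card V := by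
  refine ⟨fun x => decide (Even (lv G x)), ?_⟩
  have hM : ∀ x y, G.Adj x y → decide (Even (lv G x)) = decide (Even (lv G y)) →
      lv G x = lv G y := by
    intro x y h e
    have a := lv_adj h
    have b := lv_adj h.symm
    have c : Even (lv G x) ↔ Even (lv G y) := by simpa using e
    by_contra hne
    rcases Nat.lt_or_gt_of_ne hne with hlt | hlt
    · have : lv G y = lv G x + 1 := by omega
      rw [this, Nat.even_add_one] at c
      tauto
    · have : lv G x = lv G y + 1 := by omega
      rw [this, Nat.even_add_one] at c
      tauto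
  set M : V → V → Prop := fun x y => G.Adj x y ∧ lv G x = lv G y with hMdef
  have hsym : ∀ x y, M x y → M y x := fun x y h => ⟨h.1.symm, h.2.symm⟩
  let N : V → Finset V := fun x => univ.filter fun y => M x y
  have key : ∀ x y, M x y → (N x).card ≤ 2 ∨ (N y).card ≤ 2 := by
    intro x y h
    by_contra hc
    push Not at hc
    obtain ⟨hx, hy⟩ := hc
    have hw : ∃ w, w ∈ N y ∧ w ≠ x := by
      by_contra hcon
      push Not at hcon
      have : N y ⊆ {x} := fun w hw => by rw [mem_singleton]; exact hcon w hw
      have := card_le_card this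
      rw [card_singleton] at this
      omega
    obtain ⟨w, hw, hwx⟩ := hw
    have hu : ∃ u, u ∈ N x ∧ u ≠ y ∧ u ≠ w := by
      by_contra hcon
      push Not at hcon
      have : N x ⊆ {y, w} := fun u hu => by
        rw [mem_insert, mem_singleton]
        by_cases e : u = y
        · exact Or.inl e
        · exact Or.inr (hcon u hu e)
      have h2 := card_le_card this
      have h3 : ({y, w} : Finset V).card ≤ 2 := card_le_two
      omega
    obtain ⟨u, hu, huy, huw⟩ := hu
    have hw' : M y w := (mem_filter.mp hw).2
    have hu' : M x u := (mem_filter.mp hu).2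
    exact noP4 hG hu'.1.symm h.1 hw'.1 hu'.2.symm h.2 hw'.2 huy huw hwx.symm
  have hsub : (univ.filter fun p : V × V => G.Adj p.1 p.2 ∧
      decide (Even (lv G p.1)) = decide (Even (lv G p.2))) ⊆
      (univ.filter fun p : V × V => M p.1 p.2 ∧ (N p.1).card ≤ 2) ∪
      (univ.filter fun p : V × V => M p.1 p.2 ∧ (N p.2).card ≤ 2) := by
    intro p hp
    obtain ⟨-, hp1, hp2⟩ := mem_filter.mp hp
    have hm : M p.1 p.2 := ⟨hp1, hM _ _ hp1 hp2⟩
    rw [mem_union, mem_filter, mem_filter]
    rcases key _ _ hm with h | h
    · exact Or.inl ⟨mem_univ _, hm, h⟩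
    · exact Or.inr ⟨mem_univ _, hm, h⟩
  have c1 : (univ.filter fun p : V × V => M p.1 p.2 ∧ (N p.1).card ≤ 2).card
      ≤ 2 * Fintype.card V := by
    have e := card_eq_sum_card_fiberwise (f := Prod.fst)
      (s := univ.filter fun p : V × V => M p.1 p.2 ∧ (N p.1).card ≤ 2)
      (t := (univ : Finset V)) (fun p _ => by simp)
    rw [e]
    have : ∀ x ∈ (univ : Finset V), ((univ.filter fun p : V × V => M p.1 p.2 ∧
        (N p.1).card ≤ 2).filter fun p => p.1 = x).card ≤ 2 := by
      intro x _
      by_cases hx : (N x).card ≤ 2
      · refine le_trans ?_ hx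
        refine card_le_card_of_injOn Prod.snd ?_ ?_
        · intro p hp
          obtain ⟨hp1, hp2⟩ := mem_filter.mp (mem_coe.mp hp)
          obtain ⟨-, hp3, -⟩ := mem_filter.mp hp1
          rw [mem_coe, mem_filter]
          exact ⟨mem_univ _, hp2 ▸ hp3⟩
        · intro p hp q hq h
          have a := (mem_filter.mp (mem_coe.mp hp)).2
          have b := (mem_filter.mp (mem_coe.mp hq)).2
          exact Prod.ext (a.trans b.symm) h
      · have : ((univ.filter fun p : V × V => M p.1 p.2 ∧
            (N p.1).card ≤ 2).filter fun p => p.1 = x) = ∅ := by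
          rw [filter_eq_empty_iff]
          intro p hp e
          obtain ⟨-, -, hp2⟩ := mem_filter.mp hp
          rw [e] at hp2
          exact hx hp2
        rw [this]
        simp
    refine le_trans (sum_le_sum this) ?_
    rw [sum_const, card_univ, smul_eq_mul, mul_comm]
  have c2 : (univ.filter fun p : V × V => M p.1 p.2 ∧ (N p.2).card ≤ 2).card
      ≤ 2 * Fintype.card V := by
    refine le_trans ?_ c1
    refine card_le_card_of_injOn Prod.swap ?_ ?_
    · intro p hp
      obtain ⟨-, hp1, hp2⟩ := mem_filter.mp (mem_coe.mp hp)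
      rw [mem_coe, mem_filter]
      exact ⟨mem_univ _, hsym _ _ hp1, hp2⟩
    · intro p _ q _ h
      exact Prod.swap_injective h
  have h3 := card_le_card hsub
  have h4 := card_union_le (univ.filter fun p : V × V => M p.1 p.2 ∧ (N p.1).card ≤ 2)
      (univ.filter fun p : V × V => M p.1 p.2 ∧ (N p.2).card ≤ 2)
  have h5 := h3.trans h4
  calc _ ≤ _ := h5
    _ ≤ 4 * Fintype.card V := by omega

end Pool.Agent.Run7.h487.LinkCol
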