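import Pool.Agent.Run7.h487.Upper
import Pool.Agent.Run7.h487.LinkCol
import Pool.Agent.Run7.h487.Circ

/-! The Turan density of F32-free 3-graphs without odd cycles of length at least five in links. -/

set_option autoImplicit false
open Finset

namespace Pool.Agent.Run7.h487.Fin

open Pool.Agent.Run7.h487.LinkCol

section
variable {n : ℕ} (H : Finset (Finset (Fin n)))

theorem dist3 (h3 : ∀ e ∈ H, e.card = 3) {x y z : Fin n} (h : ({x, y, z} : Finset (Fin n)) ∈ H) :
    x ≠ y ∧ y ≠ z ∧ x ≠ z := by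
  have hc := h3 _ h
  refine ⟨?_, ?_, ?_⟩ <;> intro e <;> subst e
  · have : ({x, x, z} : Finset (Fin n)).card ≤ 2 := by
      rw [insert_eq_of_mem (mem_insert_self _ _)]; exact card_le_two
    omega
  · have : ({x, y, y} : Finset (Fin n)).card ≤ 2 := by
      rw [insert_eq_of_mem (a := y) (s := {y}) (mem_singleton_self _)]; exact card_le_two
    omega
  · have : ({x, y, x} : Finset (Fin n)).card ≤ 2 := by
      rw [insert_eq_of_mem (by simp)]; exact card_le_two
    omega

theorem perm12 (a b c : Fin n) : ({a, b, c} : Finset (Fin n)) = {b, a, c} := insert_comm _ _ _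
theorem perm23 (a b c : Fin n) : ({a, b, c} : Finset (Fin n)) = {a, c, b} := by
  rw [pair_comm b c]

/-- the link graph -/
def LG (h3 : ∀ e ∈ H, e.card = 3) (v : Fin n) : SimpleGraph (Fin n) where
  Adj x y := ({v, x, y} : Finset (Fin n)) ∈ H
  symm := ⟨fun x y h => by rw [perm23]; exact h⟩
  loopless := ⟨fun x h => (dist3 H h3 h).2.1 rfl⟩

theorem nolong (h3 : ∀ e ∈ H, e.card = 3) (hc : ∀ v : Fin n, ∀ k : ℕ, 5 ≤ k → Odd k →
    ¬ ∃ c : Fin k → Fin n, Function.Injective c ∧ (∀ i, c i ≠ v) ∧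
      ∀ i : Fin k, ({v, c i, c (finRotate k i)} : Finset (Fin n)) ∈ H) (v : Fin n) :
    NoLong (LG H h3 v) := by
  rintro k hk ho ⟨c, hinj, hadj⟩
  exact hc v k hk ho ⟨c, hinj, fun i => (dist3 H h3 (hadj i)).1.symm, hadj⟩

open scoped Classical in
theorem six_le (h3 : ∀ e ∈ H, e.card = 3) :
    6 * H.card ≤ (univ.filter fun p : Fin n × Fin n × Fin n =>
      ({p.1, p.2.1, p.2.2} : Finset (Fin n)) ∈ H).card := by
  have e0 := card_eq_sum_card_fiberwise (f := fun p : Fin n × Fin n × Fin n =>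
    ({p.1, p.2.1, p.2.2} : Finset (Fin n))) (s := univ.filter fun p : Fin n × Fin n × Fin n =>
      ({p.1, p.2.1, p.2.2} : Finset (Fin n)) ∈ H) (t := H)
      (fun p hp => mem_coe.mpr (mem_filter.mp (mem_coe.mp hp)).2)
  rw [e0, mul_comm, ← smul_eq_mul, ← sum_const]
  refine sum_le_sum fun e he => ?_
  obtain ⟨x, y, z, hxy, hxz, hyz, rfl⟩ := card_eq_three.mp (h3 e he)
  have hsub : ({(x, y, z), (x, z, y), (y, x, z), (y, z, x), (z, x, y), (z, y, x)} :
      Finset (Fin n × Fin n × Fin n)) ⊆ (univ.filter fun p : Fin n × Fin n × Fin n =>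
      ({p.1, p.2.1, p.2.2} : Finset (Fin n)) ∈ H).filter
        fun p => ({p.1, p.2.1, p.2.2} : Finset (Fin n)) = {x, y, z} := by
    have key : ∀ p : Fin n × Fin n × Fin n, ({p.1, p.2.1, p.2.2} : Finset (Fin n)) = {x, y, z} →
        p ∈ (univ.filter fun p : Fin n × Fin n × Fin n =>
      ({p.1, p.2.1, p.2.2} : Finset (Fin n)) ∈ H).filter
        fun p => ({p.1, p.2.1, p.2.2} : Finset (Fin n)) = {x, y, z} := by
      intro p hp
      rw [mem_filter, mem_filter]
      exact ⟨⟨mem_univ _, by rw [hp]; exact he⟩, hp⟩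
    intro p hp
    simp only [mem_insert, mem_singleton] at hp
    rcases hp with rfl | rfl | rfl | rfl | rfl | rfl
    · exact key _ rfl
    · exact key _ (perm23 _ _ _)
    · exact key _ (perm12 _ _ _)
    · refine key _ ?_
      show ({y, z, x} : Finset (Fin n)) = {x, y, z}
      rw [perm23, perm12]
    · refine key _ ?_
      show ({z, x, y} : Finset (Fin n)) = {x, y, z}
      rw [perm12, perm23]
    · refine key _ ?_
      show ({z, y, x} : Finset (Fin n)) = {x, y, z}
      rw [perm12, perm23, perm12]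
  refine le_trans ?_ (card_le_card hsub)
  have hyx := hxy.symm
  have hzx := hxz.symm
  have hzy := hyz.symm
  have : ({(x, y, z), (x, z, y), (y, x, z), (y, z, x), (z, x, y), (z, y, x)} :
      Finset (Fin n × Fin n × Fin n)).card = 6 := by
    rw [card_insert_of_notMem, card_insert_of_notMem, card_insert_of_notMem,
      card_insert_of_notMem, card_insert_of_notMem, card_singleton] <;>
    simp [Prod.ext_iff, hxy, hxz, hyz, hyx, hzx, hzy]
  omega

theorem inj5 {a b c d e : Fin n} (h1 : a ≠ b) (h2 : a ≠ c) (h3 : a ≠ d) (h4 : a ≠ e)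
    (h5 : b ≠ c) (h6 : b ≠ d) (h7 : b ≠ e) (h8 : c ≠ d) (h9 : c ≠ e) (h10 : d ≠ e) :
    Function.Injective ![c, d, e, a, b] := by
  intro i j hij
  fin_cases i <;> fin_cases j <;>
    first
    | rfl
    | exact absurd hij h1 | exact absurd hij h2 | exact absurd hij h3 | exact absurd hij h4
    | exact absurd hij h5 | exact absurd hij h6 | exact absurd hij h7 | exact absurd hij h8
    | exact absurd hij h9 | exact absurd hij h10
    | exact absurd hij.symm h1 | exact absurd hij.symm h2 | exact absurd hij.symm h3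
    | exact absurd hij.symm h4 | exact absurd hij.symm h5 | exact absurd hij.symm h6
    | exact absurd hij.symm h7 | exact absurd hij.symm h8 | exact absurd hij.symm h9
    | exact absurd hij.symm h10

open scoped Classical in
theorem upper_fin (hn : 0 < n) (h3 : ∀ e ∈ H, e.card = 3)
    (hf : ¬ ∃ f : Fin 5 → Fin n, Function.Injective f ∧
              ({f 0, f 1, f 2} : Finset (Fin n)) ∈ H ∧
              ({f 0, f 3, f 4} : Finset (Fin n)) ∈ H ∧
              ({f 1, f 3, f 4} : Finset (Fin n)) ∈ H ∧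
              ({f 2, f 3, f 4} : Finset (Fin n)) ∈ H)
    (hc : ∀ v : Fin n, ∀ k : ℕ, 5 ≤ k → Odd k →
    ¬ ∃ c : Fin k → Fin n, Function.Injective c ∧ (∀ i, c i ≠ v) ∧
      ∀ i : Fin k, ({v, c i, c (finRotate k i)} : Finset (Fin n)) ∈ H) :
    6 * (H.card : ℝ) ≤ (n : ℝ) ^ 3 / 4 + 1012 * (n : ℝ) ^ 2 := by
  choose f hfc using fun v => exists_col (LG H h3 v) (nolong H h3 hc v)
  let s : Fin n → Fin n → ℕ := fun v x => if f v x = true then 1 else 0
  have hs : ∀ x y, s x y ≤ 1 := fun x y => by simp only [s]; split_ifs <;> omega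
  have hsf : ∀ v x y, s v x = s v y ↔ f v x = f v y := by
    intro v x y
    simp only [s]
    cases f v x <;> cases f v y <;> simp
  let Q : Fin n → Fin n → Fin n → Prop := fun a b c =>
    ({a, b, c} : Finset (Fin n)) ∈ H ∧ s a b ≠ s a c ∧ s b a ≠ s b c ∧ s c a ≠ s c b
  let E : Fin n → Fin n → Fin n → ℕ := fun a b c => if Q a b c then 1 else 0
  have hE : ∀ x y z, E x y z ≤ 1 := fun x y z => by simp only [E]; split_ifs <;> omega
  have hE1 : ∀ x y z, E x y z = 1 ↔ Q x y z := fun x y z => by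
    simp only [E]; split_ifs with h <;> simp [h]
  have q12 : ∀ a b c, Q a b c ↔ Q b a c := by
    intro a b c
    simp only [Q]
    rw [perm12 a b c, ne_comm (a := s c a)]
    tauto
  have q23 : ∀ a b c, Q a b c ↔ Q a c b := by
    intro a b c
    simp only [Q]
    rw [perm23 a b c, ne_comm (a := s a b)]
    tauto
  have h12 : ∀ a b c, E a b c = E b a c := fun a b c => by
    simp only [E]; rw [if_congr (q12 a b c) rfl rfl]
  have h23 : ∀ a b c, E a b c = E a c b := fun a b c => by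
    simp only [E]; rw [if_congr (q23 a b c) rfl rfl]
  have key := FL.upper (V := Fin n) (by rw [Fintype.card_fin]; exact hn) s E hs hE h12 h23
    (fun a b c h => ((hE1 _ _ _).mp h).2.1) (by
      rintro a b c d e h1 h2 h4 h5 h6 h7 h8 h9 h10 h11 ⟨x1, x2, x3, x4⟩
      have y1 := ((hE1 _ _ _).mp x1).1
      have y2 := ((hE1 _ _ _).mp x2).1
      have y3 := ((hE1 _ _ _).mp x3).1
      have y4 := ((hE1 _ _ _).mp x4).1
      refine hf ⟨![c, d, e, a, b], ?_, ?_, ?_, ?_, ?_⟩
      · exact inj5 h1 h2 h4 h5 h6 h7 h8 h9 h10 h11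
      · exact y4
      · show ({c, a, b} : Finset (Fin n)) ∈ H
        rw [perm12, perm23]; exact y1
      · show ({d, a, b} : Finset (Fin n)) ∈ H
        rw [perm12, perm23]; exact y2
      · show ({e, a, b} : Finset (Fin n)) ∈ H
        rw [perm12, perm23]; exact y3)
  rw [Fintype.card_fin] at key
  -- counting
  let P := univ.filter fun p : Fin n × Fin n × Fin n => ({p.1, p.2.1, p.2.2} : Finset (Fin n)) ∈ H
  let PG := univ.filter fun p : Fin n × Fin n × Fin n => Q p.1 p.2.1 p.2.2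
  let B1 := univ.filter fun p : Fin n × Fin n × Fin n =>
    ({p.1, p.2.1, p.2.2} : Finset (Fin n)) ∈ H ∧ s p.1 p.2.1 = s p.1 p.2.2
  let B2 := univ.filter fun p : Fin n × Fin n × Fin n =>
    ({p.1, p.2.1, p.2.2} : Finset (Fin n)) ∈ H ∧ s p.2.1 p.1 = s p.2.1 p.2.2
  let B3 := univ.filter fun p : Fin n × Fin n × Fin n =>
    ({p.1, p.2.1, p.2.2} : Finset (Fin n)) ∈ H ∧ s p.2.2 p.1 = s p.2.2 p.2.1
  have hP : 6 * H.card ≤ P.card := six_le H h3
  have hsub : P ⊆ PG ∪ (B1 ∪ (B2 ∪ B3)) := by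
    intro p hp
    have hp1 : ({p.1, p.2.1, p.2.2} : Finset (Fin n)) ∈ H := (mem_filter.mp hp).2
    simp only [mem_union, PG, B1, B2, B3, mem_filter, mem_univ, true_and, Q]
    tauto
  have hB1 : B1.card ≤ 4 * n ^ 2 := by
    have e := card_eq_sum_card_fiberwise (f := fun p : Fin n × Fin n × Fin n => p.1)
      (s := B1) (t := (univ : Finset (Fin n))) (fun p _ => by simp)
    rw [e]
    have : ∀ v ∈ (univ : Finset (Fin n)), (B1.filter fun p => p.1 = v).card ≤ 4 * n := by
      intro v _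
      have h := hfc v
      rw [Fintype.card_fin] at h
      refine le_trans ?_ h
      refine card_le_card_of_injOn (fun p => p.2) ?_ ?_
      · intro p hp
        obtain ⟨hp1, hp2⟩ := mem_filter.mp (mem_coe.mp hp)
        obtain ⟨-, hp3, hp4⟩ := mem_filter.mp hp1
        rw [mem_coe, mem_filter]
        refine ⟨mem_univ _, ?_, ?_⟩
        · show ({v, p.2.1, p.2.2} : Finset (Fin n)) ∈ H
          rw [← hp2]; exact hp3
        · rw [← hsf, ← hp2]; exact hp4
      · intro p hp q hq h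
        have a := (mem_filter.mp (mem_coe.mp hp)).2
        have b := (mem_filter.mp (mem_coe.mp hq)).2
        exact Prod.ext (a.trans b.symm) h
    refine le_trans (sum_le_sum this) ?_
    rw [sum_const, card_univ, Fintype.card_fin, smul_eq_mul]
    nlinarith
  have hB2 : B2.card ≤ 4 * n ^ 2 := by
    refine le_trans ?_ hB1
    refine card_le_card_of_injOn (fun p => (p.2.1, p.1, p.2.2)) ?_ ?_
    · intro p hp
      obtain ⟨-, hp3, hp4⟩ := mem_filter.mp (mem_coe.mp hp)
      rw [mem_coe, mem_filter]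
      refine ⟨mem_univ _, ?_, hp4⟩
      show ({p.2.1, p.1, p.2.2} : Finset (Fin n)) ∈ H
      rw [perm12]; exact hp3
    · rintro ⟨a, b, c⟩ _ ⟨a', b', c'⟩ _ h
      simp only [Prod.mk.injEq] at h ⊢
      tauto
  have hB3 : B3.card ≤ 4 * n ^ 2 := by
    refine le_trans ?_ hB1
    refine card_le_card_of_injOn (fun p => (p.2.2, p.1, p.2.1)) ?_ ?_
    · intro p hp
      obtain ⟨-, hp3, hp4⟩ := mem_filter.mp (mem_coe.mp hp)
      rw [mem_coe, mem_filter]
      refine ⟨mem_univ _, ?_, hp4⟩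
      show ({p.2.2, p.1, p.2.1} : Finset (Fin n)) ∈ H
      rw [perm12, perm23]; exact hp3
    · rintro ⟨a, b, c⟩ _ ⟨a', b', c'⟩ _ h
      simp only [Prod.mk.injEq] at h ⊢
      tauto
  have hPG : (PG.card : ℝ) = ∑ a, ∑ b, ∑ c, (E a b c : ℝ) := by
    have e : PG.card = ∑ p : Fin n × Fin n × Fin n, E p.1 p.2.1 p.2.2 := by
      rw [card_filter]
    rw [e]
    push_cast
    rw [Fintype.sum_prod_type]
    refine sum_congr rfl fun a _ => ?_
    rw [Fintype.sum_prod_type]
  have h1 := card_le_card hsub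
  have h2 := card_union_le PG (B1 ∪ (B2 ∪ B3))
  have h4 := card_union_le B1 (B2 ∪ B3)
  have h5 := card_union_le B2 B3
  have h6 : 6 * H.card ≤ PG.card + 12 * n ^ 2 := by omega
  have h7 : 6 * (H.card : ℝ) ≤ (PG.card : ℝ) + 12 * (n : ℝ) ^ 2 := by exact_mod_cast h6
  rw [hPG] at h7
  linarith

end

theorem choose3 (n : ℕ) (hn : 2 ≤ n) : (n : ℝ) ^ 3 - 3 * (n : ℝ) ^ 2 ≤ 6 * ((n.choose 3 : ℕ) : ℝ) := by
  obtain ⟨m, rfl⟩ : ∃ m, n = m + 2 := ⟨n - 2, by omega⟩
  have h := Nat.descFactorial_eq_factorial_mul_choose (m + 2) 3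
  have h2 : (m + 2).descFactorial 3 = m * ((m + 1) * (m + 2)) := by
    simp [Nat.descFactorial]
  have h3 : Nat.factorial 3 = 6 := rfl
  rw [h2, h3] at h
  have h4 : ((m * ((m + 1) * (m + 2)) : ℕ) : ℝ) = ((6 * (m + 2).choose 3 : ℕ) : ℝ) := by rw [h]
  push_cast at h4 ⊢
  rw [← h4]
  nlinarith [(Nat.cast_nonneg m : (0 : ℝ) ≤ (m : ℝ))]

end Pool.Agent.Run7.h487.Fin
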