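import Pool.Agent.Run7.h487.Bridge

/-! The density bound 1/4 for F32-free 3-graphs with 2-coloured links. -/

set_option autoImplicit false
set_option maxRecDepth 100000
open Finset

namespace Pool.Agent.Run7.h487.FL

open Pool.Agent.H122R2.FdF Pool.Agent.W38.TO

def m3 (c k : ℕ) : ℕ := sel (ty c) (ww DA k) (ww DB k) (ww DC k) 0
def l3 (c i k : ℕ) : ℕ := sel (ty c) (ll LA (fi c i) k) (ll LB (fi c i) k) (ll LC (fi c i) k) 0

theorem sel1 (x1 x2 x3 y : ℕ) : sel 1 x1 x2 x3 y = x1 := rfl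
theorem sel2 (x1 x2 x3 y : ℕ) : sel 2 x1 x2 x3 y = x2 := rfl
theorem sel3 (x1 x2 x3 y : ℕ) : sel 3 x1 x2 x3 y = x3 := rfl
theorem sel0 (x1 x2 x3 y : ℕ) : sel 0 x1 x2 x3 y = y := rfl

theorem hq3 (c i j : ℕ) (hc : c < 16) (hi : i < 256) (hj : j < 256) : (q3 c i j : ℤ) =
    ∑ k ∈ range 60, (m3 c k : ℤ) * (((l3 c i k : ℤ) - 131072) * ((l3 c j k : ℤ) - 131072))
      + 34359738368 + 6442450944 * ((c % 2 : ℕ) : ℤ) := by
  have hfi : ∀ i < 256, fi c i < 47 := fun i hi =>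
    Nat.le_of_ble_eq_true (nall_true (nall_true fi_ok c hc) i hi)
  have ht : ty c < 4 := Nat.le_of_ble_eq_true (nall_true ty_ok c hc)
  have e : (q3 c i j : ℤ) = ((sel (ty c) (tt TA (Nat.add (Nat.mul 47 (fi c i)) (fi c j)))
    (tt TB (Nat.add (Nat.mul 47 (fi c i)) (fi c j)))
    (tt TC (Nat.add (Nat.mul 47 (fi c i)) (fi c j))) 34359738368 : ℕ) : ℤ)
    + 6442450944 * ((c % 2 : ℕ) : ℤ) := by
    unfold q3
    simp only [Nat.add_eq, Nat.mul_eq]
    push_cast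
    rfl
  rw [e]
  unfold m3 l3
  interval_cases h : ty c
  · simp only [sel0, Nat.cast_zero, zero_mul, sum_const_zero]
    norm_num
  · simp only [sel1]
    rw [ps_eq' (nall_true (nall_true psA _ (hfi i hi)) _ (hfi j hj))]
  · simp only [sel2]
    rw [ps_eq' (nall_true (nall_true psB _ (hfi i hi)) _ (hfi j hj))]
  · simp only [sel3]
    rw [ps_eq' (nall_true (nall_true psC _ (hfi i hi)) _ (hfi j hj))]

theorem hq1 (i j : ℕ) (hi : i < 16) (hj : j < 16) : (q1 i j : ℤ) =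
    ∑ k ∈ range 60, (ww DD k : ℤ) * (((ll LD i k : ℤ) - 131072) * ((ll LD j k : ℤ) - 131072))
      + 34359738368 := by
  unfold q1
  exact ps_eq' (nall_true (nall_true psD _ hi) _ hj)

theorem tt_lt (T e : ℕ) : tt T e < 68719476736 := Nat.mod_lt _ (by norm_num)

theorem q3_lt (c i j : ℕ) : q3 c i j < 137438953472 := by
  have h1 : ∀ t x1 x2 x3 y, x1 < 68719476736 → x2 < 68719476736 → x3 < 68719476736 →
      y < 68719476736 → sel t x1 x2 x3 y < 68719476736 := by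
    intro t x1 x2 x3 y a b c d
    unfold sel
    cases Nat.beq t 1 <;> cases Nat.beq t 3 <;> cases Nat.beq t 2 <;> simp only [cond_true, cond_false] <;>
      assumption
  have h2 := h1 (ty c) _ _ _ 34359738368 (tt_lt TA (Nat.add (Nat.mul 47 (fi c i)) (fi c j)))
    (tt_lt TB (Nat.add (Nat.mul 47 (fi c i)) (fi c j)))
    (tt_lt TC (Nat.add (Nat.mul 47 (fi c i)) (fi c j))) (by norm_num)
  have h3 : c % 2 < 2 := Nat.mod_lt _ (by norm_num)
  show sel (ty c) _ _ _ _ + 6442450944 * (c % 2) < _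
  omega

theorem q1_lt (i j : ℕ) : q1 i j < 68719476736 := tt_lt _ _

theorem sum25 (a0 a1 a2 a3 a4 a5 a6 a7 a8 a9 b0 b1 b2 b3 b4 b5 b6 b7 b8 b9 b10 b11 b12 b13 b14 : ℕ)
    (ha0 : a0 < 137438953472)
    (ha1 : a1 < 137438953472)
    (ha2 : a2 < 137438953472)
    (ha3 : a3 < 137438953472)
    (ha4 : a4 < 137438953472)
    (ha5 : a5 < 137438953472)
    (ha6 : a6 < 137438953472)
    (ha7 : a7 < 137438953472)
    (ha8 : a8 < 137438953472)
    (ha9 : a9 < 137438953472)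
    (hb0 : b0 < 68719476736)
    (hb1 : b1 < 68719476736)
    (hb2 : b2 < 68719476736)
    (hb3 : b3 < 68719476736)
    (hb4 : b4 < 68719476736)
    (hb5 : b5 < 68719476736)
    (hb6 : b6 < 68719476736)
    (hb7 : b7 < 68719476736)
    (hb8 : b8 < 68719476736)
    (hb9 : b9 < 68719476736)
    (hb10 : b10 < 68719476736)
    (hb11 : b11 < 68719476736)
    (hb12 : b12 < 68719476736)
    (hb13 : b13 < 68719476736)
    (hb14 : b14 < 68719476736)
    : (a0 + (a1 + (a2 + (a3 + (a4 + (a5 + (a6 + (a7 + (a8 + a9))))))))) + (b0 + (b1 + (b2 + (b3 + (b4 + (b5 + (b6 + (b7 + (b8 + (b9 + (b10 + (b11 + (b12 + (b13 + b14)))))))))))))) < 4398046511104 := by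
  linarith

theorem LF_lt {V : Type} (s : V → V → ℕ) (E : V → V → V → ℕ) (x : Fin 5 → V) :
    LF s E q3 q1 x < 4398046511104 := by
  have h3 : ∀ a b c d e, G3 s E q3 a b c d e < 137438953472 := fun a b c d e => q3_lt _ _ _
  have h1 : ∀ a b c d e, G1 s E q1 a b c d e < 68719476736 := fun a b c d e => q1_lt _ _
  exact sum25 _ _ _ _ _ _ _ _ _ _ _ _ _
    _ _ _ _ _ _ _ _ _ _ _ _
    (h3 _ _ _ _ _) (h3 _ _ _ _ _) (h3 _ _ _ _ _) (h3 _ _ _ _ _) (h3 _ _ _ _ _) (h3 _ _ _ _ _) (h3 _ _ _ _ _) (h3 _ _ _ _ _) (h3 _ _ _ _ _) (h3 _ _ _ _ _)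
    (h1 _ _ _ _ _) (h1 _ _ _ _ _) (h1 _ _ _ _ _) (h1 _ _ _ _ _) (h1 _ _ _ _ _) (h1 _ _ _ _ _) (h1 _ _ _ _ _) (h1 _ _ _ _ _) (h1 _ _ _ _ _) (h1 _ _ _ _ _) (h1 _ _ _ _ _) (h1 _ _ _ _ _) (h1 _ _ _ _ _) (h1 _ _ _ _ _) (h1 _ _ _ _ _)

theorem R3_mod {V : Type} (s : V → V → ℕ) (E : V → V → V → ℕ) (hE : ∀ x y z, E x y z ≤ 1)
    (a b c : V) : R3 s E a b c % 2 = E a b c := by
  have h := hE a b c
  show (8 * Nat.xor (s a b) (s a c) + (4 * Nat.xor (s b c) (s b a) +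
    (2 * Nat.xor (s c a) (s c b) + E a b c))) % 2 = E a b c
  omega

theorem upper {V : Type} [Fintype V] (hn : 0 < Fintype.card V) (s : V → V → ℕ)
    (E : V → V → V → ℕ) (hs : ∀ x y, s x y ≤ 1) (hE : ∀ x y z, E x y z ≤ 1)
    (h12 : ∀ a b c, E a b c = E b a c) (h23 : ∀ a b c, E a b c = E a c b)
    (him : ∀ a b c, E a b c = 1 → s a b ≠ s a c)
    (hF : ∀ a b c d e : V, a ≠ b → a ≠ c → a ≠ d → a ≠ e → b ≠ c → b ≠ d → b ≠ e → c ≠ d →
      c ≠ e → d ≠ e → ¬ (E a b c = 1 ∧ E a b d = 1 ∧ E a b e = 1 ∧ E c d e = 1)) :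
    (∑ a, ∑ b, ∑ c, (E a b c : ℝ)) ≤ (Fintype.card V : ℝ) ^ 3 / 4
      + 1000 * (Fintype.card V : ℝ) ^ 2 := by
  have hNp : (0 : ℝ) < (Fintype.card V : ℝ) := by exact_mod_cast hn
  have key := flagL hn s E hs hE 60 60 875099586560 4398046511104 (by norm_num) q3 l3 m3 q1
    (ll LD) (ww DD) 131072 131072 34359738368 34359738368
    (fun c => 6442450944 * ((c % 2 : ℕ) : ℤ)) hq3 hq1 ?_ ?_
  · have e : ∑ a, ∑ b, ∑ c, (((6442450944 * ((R3 s E a b c % 2 : ℕ) : ℤ) : ℤ)) : ℝ)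
        = 6442450944 * ∑ a, ∑ b, ∑ c, (E a b c : ℝ) := by
      simp only [mul_sum]
      refine sum_congr rfl fun a _ => sum_congr rfl fun b _ => sum_congr rfl fun c _ => ?_
      rw [R3_mod s E hE]
      push_cast
      ring
    rw [e] at key
    push_cast at key
    set N : ℝ := (Fintype.card V : ℝ) with hNdef
    set Se : ℝ := ∑ a, ∑ b, ∑ c, (E a b c : ℝ) with hSdef
    have h1 : 64424509440 * (Se / N ^ 3) ≤ 16106127360 + 43980465111040 / N := by
      have : 6442450944 * Se / N ^ 3 = 6442450944 * (Se / N ^ 3) := by ring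
      rw [this] at key
      have h2 : (10 : ℝ) * 4398046511104 / N = 43980465111040 / N := by norm_num
      rw [h2] at key
      linarith
    have h3 : Se / N ^ 3 ≤ 1 / 4 + 1000 / N := by
      have h4 : 43980465111040 / N ≤ 64424509440 * (1000 / N) := by
        rw [← mul_div_assoc]
        exact div_le_div_of_nonneg_right (by norm_num) hNp.le
      linarith
    rw [div_le_iff₀ (by positivity)] at h3
    calc Se ≤ (1 / 4 + 1000 / N) * N ^ 3 := h3
      _ = _ := by field_simp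
  · intro x hx
    have h := LF_gauge s E hs q3 q1 x (![s (x 0) (x 1), s (x 1) (x 0), s (x 2) (x 0),
      s (x 3) (x 0), s (x 4) (x 0)]) (by intro i; fin_cases i <;> exact hs _ _)
    rw [h]
    have h2 : LF (fun i j => Nat.xor (s (x i) (x j)) ((![s (x 0) (x 1), s (x 1) (x 0), s (x 2) (x 0),
      s (x 3) (x 0), s (x 4) (x 0)] : Fin 5 → ℕ) i)) (fun i j k => E (x i) (x j) (x k)) q3 q1 id
        ≤ 875099586560 := by
      have hg : ∀ i, (![s (x 0) (x 1), s (x 1) (x 0), s (x 2) (x 0),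
        s (x 3) (x 0), s (x 4) (x 0)] : Fin 5 → ℕ) i ≤ 1 := by
        intro i; fin_cases i <;> exact hs _ _
      refine leaf_fin _ _ (fun i j => xor_le_one (hs _ _) (hg i)) (fun _ _ _ => hE _ _ _)
        (fun _ _ _ => h12 _ _ _) (fun _ _ _ => h23 _ _ _) (xself (hs _ _)) (xself (hs _ _))
        (xself (hs _ _)) (xself (hs _ _)) (xself (hs _ _)) ?_ ?_
      · intro i j k hijk
        have a1 := him _ _ _ hijk
        have a2 : s (x j) (x i) ≠ s (x j) (x k) := him _ _ _ (by rw [← h12]; exact hijk)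
        have a3 : s (x k) (x i) ≠ s (x k) (x j) := him _ _ _ (by rw [h12, ← h23]; exact hijk)
        unfold mm
        rw [xg (hs _ _) (hs _ _) (hg _), xg (hs _ _) (hs _ _) (hg _), xg (hs _ _) (hs _ _) (hg _),
          xne (hs _ _) (hs _ _) a1, xne (hs _ _) (hs _ _) a2, xne (hs _ _) (hs _ _) a3]
      · intro a b c d e h1 h2 h3 h4 h5 h6 h7 h8 h9 h10
        exact hF _ _ _ _ _ (hx.ne h1) (hx.ne h2) (hx.ne h3) (hx.ne h4) (hx.ne h5) (hx.ne h6)
          (hx.ne h7) (hx.ne h8) (hx.ne h9) (hx.ne h10)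
    exact_mod_cast h2
  · intro x
    have h := LF_lt s E x
    have h2 : (LF s E q3 q1 x : ℝ) < 4398046511104 := by exact_mod_cast h
    linarith

end Pool.Agent.Run7.h487.FL
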